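import Pool.Agent.Lib_helper71.AF.Shift

/-! The group action, the subgroups `Nj`, and commutation. -/

namespace Pool.Agent.Lib_helper71.AF

set_option linter.unusedSectionVars false

variable {A : Type*} {F : Set (List A)}

/-- shift of a point of the subshift -/
def shS (s : ℤ) (x : SF F) : SF F := ⟨sh s x.1, sh_mem s x.2⟩

theorem shS_shS (s t : ℤ) (x : SF F) : shS s (shS t x) = shS (s + t) x :=
  Subtype.ext (sh_sh s t x.1)

theorem shS_zero (x : SF F) : shS 0 x = x := Subtype.ext (sh_zero x.1)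

@[simp] theorem shS_val (s : ℤ) (x : SF F) : (shS s x).1 = sh s x.1 := rfl

theorem per_of_shS {x : SF F} {m n : ℤ} (h : shS m x = shS n x) (hmn : m ≠ n) : Per x.1 := by
  refine Per.of_int (p := n - m) (by omega) (fun i => ?_)
  have := congrFun (congrArg Subtype.val h) (i - m)
  simp only [shS_val, sh_apply] at this
  rw [show i - m + m = i by ring] at this
  rw [this]
  exact congrArg x.1 (by ring)

variable [DecidableEq A]

/-- the data of a group generated by local shift involutions -/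
structure Dat (F : Set (List A)) (Γ : Type*) [Group Γ] [MulAction Γ (SF F)] where
  φ : A → Γ
  smul : ∀ (a : A) (x : SF F), φ a • x = shS (mv x.1 a 0) x
  gen : Subgroup.closure (Set.range φ) = ⊤
  faithful : ∀ g : Γ, (∀ x : SF F, g • x = x) → g = 1
  aa : ∀ a, [a, a] ∈ F

namespace Dat

variable {Γ : Type*} [Group Γ] [MulAction Γ (SF F)] (D : Dat F Γ)
include D

theorem proper (x : SF F) : Proper x.1 := proper_of_mem D.aa x.2

/-- group element of a word, head acts first -/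
def wd : List A → Γ
  | [] => 1
  | a :: l => wd l * D.φ a

theorem smul_sh (a : A) (n : ℤ) (x : SF F) : D.φ a • shS n x = shS (mv x.1 a n) x := by
  rw [D.smul, shS_shS]
  congr 1
  have := mv_shift x.1 n a 0
  simp only [zero_add] at this
  exact this

theorem wd_smul (l : List A) (n : ℤ) (x : SF F) : D.wd l • shS n x = shS (run x.1 l n) x := by
  induction l generalizing n with
  | nil => simp [wd]
  | cons a l ih => rw [wd, mul_smul, D.smul_sh, ih, run_cons]

theorem wd_smul0 (l : List A) (x : SF F) : D.wd l • x = shS (run x.1 l 0) x := by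
  have := D.wd_smul l 0 x
  rwa [shS_zero] at this

theorem wd_append (l l' : List A) : D.wd (l ++ l') = D.wd l' * D.wd l := by
  induction l with
  | nil => simp [wd]
  | cons a l ih => rw [List.cons_append, wd, ih, wd, mul_assoc]

theorem eq_of_smul {g h : Γ} (H : ∀ x : SF F, g • x = h • x) : g = h := by
  have : h⁻¹ * g = 1 := D.faithful _ (fun x => by rw [mul_smul, H x, inv_smul_smul])
  exact (inv_mul_eq_one.1 this).symm

theorem wd_reverse (l : List A) : D.wd l.reverse = (D.wd l)⁻¹ := by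
  rw [eq_inv_iff_mul_eq_one]
  apply D.faithful
  intro x
  rw [mul_smul, D.wd_smul0 l x, D.wd_smul, run_reverse (D.proper x), shS_zero]

theorem wd_pw (l : List A) (k : ℕ) : D.wd (pw l k) = (D.wd l) ^ k := by
  induction k with
  | zero => simp [pw, wd]
  | succ k ih => rw [pw, D.wd_append, ih, pow_succ]

theorem exists_wd (g : Γ) : ∃ l, g = D.wd l := by
  have hg : g ∈ Subgroup.closure (Set.range D.φ) := by rw [D.gen]; trivial
  induction hg using Subgroup.closure_induction with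
  | mem y hy =>
    obtain ⟨a, rfl⟩ := hy
    exact ⟨[a], by simp [wd]⟩
  | one => exact ⟨[], rfl⟩
  | mul x y _ _ hx hy =>
    obtain ⟨l, rfl⟩ := hx
    obtain ⟨m, rfl⟩ := hy
    exact ⟨m ++ l, (D.wd_append m l).symm⟩
  | inv x _ hx =>
    obtain ⟨l, rfl⟩ := hx
    exact ⟨l.reverse, (D.wd_reverse l).symm⟩

theorem smul_eq (g : Γ) (x : SF F) : ∃ s : ℤ, g • x = shS s x := by
  obtain ⟨l, rfl⟩ := D.exists_wd g
  exact ⟨_, D.wd_smul0 l x⟩

theorem run_of_smul {x : SF F} (hx : ¬ Per x.1) {l : List A} {m n : ℤ}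
    (h : D.wd l • shS m x = shS n x) : run x.1 l m = n := by
  rw [D.wd_smul] at h
  by_contra hne
  exact hx (per_of_shS h hne)

/-! ### zero displacement -/

variable (R : ℕ)

/-- the word `l` has zero displacement on all points with at most `j` non-cyclic windows -/
def Zw (_D : Dat F Γ) (j : ℕ) (l : List A) : Prop :=
  ∀ x ∈ SF F, (NC F R x).ncard ≤ j → ∀ n, run x l n = n

/-- group elements with zero displacement on points with at most `j` non-cyclic windows -/
def Nj (j : ℕ) : Subgroup Γ where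
  carrier := {g | ∃ l, g = D.wd l ∧ D.Zw R j l}
  mul_mem' := by
    rintro _ _ ⟨l, rfl, hl⟩ ⟨m, rfl, hm⟩
    refine ⟨m ++ l, (D.wd_append m l).symm, ?_⟩
    intro x hx hc n
    rw [run_append, hm x hx hc, hl x hx hc]
  one_mem' := ⟨[], rfl, fun _ _ _ _ => rfl⟩
  inv_mem' := by
    rintro _ ⟨l, rfl, hl⟩
    refine ⟨l.reverse, (D.wd_reverse l).symm, ?_⟩
    intro x hx hc n
    have := run_reverse (D.proper ⟨x, hx⟩) l n
    rw [hl x hx hc] at this
    exact this

theorem mem_Nj {j : ℕ} {g : Γ} : g ∈ D.Nj R j ↔ ∃ l, g = D.wd l ∧ D.Zw R j l := Iff.rfl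

instance Nj_normal (j : ℕ) : (D.Nj R j).Normal where
  conj_mem := by
    rintro _ ⟨l, rfl, hl⟩ h
    obtain ⟨m, rfl⟩ := D.exists_wd h
    refine ⟨m.reverse ++ (l ++ m), ?_, ?_⟩
    · rw [D.wd_append, D.wd_append, D.wd_reverse]
    · intro x hx hc n
      rw [run_append, run_append, hl x hx hc, run_reverse' (D.proper ⟨x, hx⟩)]

theorem Nj_mono {i j : ℕ} (h : i ≤ j) : D.Nj R j ≤ D.Nj R i := by
  rintro _ ⟨l, rfl, hl⟩
  exact ⟨l, rfl, fun x hx hc n => hl x hx (hc.trans h) n⟩

theorem Nj_smul {j : ℕ} {g : Γ} (hg : g ∈ D.Nj R j) (x : SF F) (hx : (NC F R x.1).ncard ≤ j) :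
    g • x = x := by
  obtain ⟨l, rfl, hl⟩ := hg
  rw [D.wd_smul0, hl x.1 x.2 hx, shS_zero]

variable {R} (hR : Loc F R) [Finite A]
include hR

theorem not_per_of_nc {x : SF F} (h : (NC F R x.1).Nonempty) : ¬ Per x.1 := by
  intro hp
  obtain ⟨i, hi⟩ := h
  exact hi (cyc_of_per x.2 hp i)

theorem nc_nonempty {x : SF F} {j : ℕ} (h : j < (NC F R x.1).ncard) : (NC F R x.1).Nonempty := by
  rw [Set.nonempty_iff_ne_empty]
  intro h0
  rw [h0, Set.ncard_empty] at h
  omega

/-- it suffices to be trivial on points -/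
theorem mem_Nj_succ {j : ℕ} {g : Γ} (hg : g ∈ D.Nj R j)
    (h : ∀ x : SF F, (NC F R x.1).ncard = j + 1 → g • x = x) : g ∈ D.Nj R (j + 1) := by
  obtain ⟨l, rfl, hl⟩ := hg
  refine ⟨l, rfl, ?_⟩
  intro x hx hc n
  rcases Nat.lt_or_ge j (NC F R x).ncard with h1 | h1
  · have h2 : (NC F R x).ncard = j + 1 := by omega
    have h3 : ¬ Per x := D.not_per_of_nc hR (x := ⟨x, hx⟩) (D.nc_nonempty hR (x := ⟨x, hx⟩) h1)
    apply D.run_of_smul (x := ⟨x, hx⟩) h3
    apply h
    rw [shS_val, nc_sh_card]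
    exact h2
  · exact hl x hx h1 n

theorem Nj_top : ∃ J, D.Nj R J = ⊥ := by
  refine ⟨Nat.card (Fin R → A), ?_⟩
  rw [Subgroup.eq_bot_iff_forall]
  rintro _ ⟨l, rfl, hl⟩
  apply D.faithful
  intro x
  rw [D.wd_smul0, hl x.1 x.2 (nc_card hR x.2), shS_zero]

/-- locality of elements of `Nj 0` -/
theorem local0 {l : List A} (hl : D.Zw R 0 l) (x : SF F)
    (h : ∀ p ∈ NC F R x.1, (l.length : ℤ) + 1 < |p|) (n : ℤ) (hn : n = 0) :
    run x.1 l n = n := by
  subst hn
  have h1 : Cyc F R x.1 (l.length + 1) := by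
    by_contra hc
    have := h _ hc
    rw [abs_of_nonneg (by omega)] at this
    omega
  obtain ⟨y, hy, hy1, hy2⟩ := cut_right hR x.2 h1
  have h2 : Cyc F R y (-(l.length : ℤ) - 1) := by
    by_contra hc
    have := h _ (hy2 _ hc).1
    rw [abs_of_nonpos (by omega)] at this
    omega
  obtain ⟨z, hz, hz1, hz2⟩ := cut_left hR hy h2
  have h3 : NC F R z = ∅ := by
    rw [Set.eq_empty_iff_forall_notMem]
    intro p hp
    obtain ⟨h4, h5⟩ := hz2 p hp
    obtain ⟨h6, h7⟩ := hy2 p h4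
    have := h p h6
    have h8 : |p| < l.length + 1 := abs_lt.2 ⟨by omega, by omega⟩
    omega
  have h4 := hl z hz (by rw [h3]; simp) 0
  refine Eq.trans ?_ h4
  apply run_congr
  intro i hi1 hi2
  rw [hz1 i (by omega), hy1 i (by omega)]

/-- locality of elements of `Nj j` -/
theorem localj {j : ℕ} {l : List A} (hl : D.Zw R j l) (x : SF F)
    (hc : (NC F R x.1).ncard ≤ j + 1)
    (h : ∃ p ∈ NC F R x.1, (l.length : ℤ) + j + 2 < |p|) : run x.1 l 0 = 0 := by
  have hfin := nc_finite hR x.2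
  obtain ⟨p, hp, hpT⟩ := h
  rcases lt_or_ge p 0 with hp0 | hp0
  · rw [abs_of_neg hp0] at hpT
    have : ∃ q ∈ Finset.Icc (-(l.length : ℤ) - j - 2) (-(l.length : ℤ) - 1), Cyc F R x.1 q := by
      by_contra hcon
      push Not at hcon
      have h1 : ((Finset.Icc (-(l.length : ℤ) - j - 2) (-(l.length : ℤ) - 1) : Finset ℤ) : Set ℤ)
          ⊆ NC F R x.1 := fun q hq => hcon q (by simpa using hq)
      have h2 := Set.ncard_le_ncard h1 hfin
      rw [Set.ncard_coe_finset, Int.card_Icc] at h2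
      omega
    obtain ⟨q, hq1, hq2⟩ := this
    rw [Finset.mem_Icc] at hq1
    obtain ⟨y, hy, hy1, hy2⟩ := cut_left hR x.2 hq2
    have h3 : NC F R y ⊆ NC F R x.1 \ {p} := by
      intro i hi
      obtain ⟨h4, h5⟩ := hy2 i hi
      exact ⟨h4, by simp only [Set.mem_singleton_iff]; omega⟩
    have h4 := Set.ncard_le_ncard h3 (hfin.subset Set.sdiff_subset)
    rw [Set.ncard_sdiff_singleton_of_mem hp] at h4
    have h5 := hl y hy (by omega) 0
    refine Eq.trans ?_ h5
    apply run_congr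
    intro i hi1 hi2
    rw [hy1 i (by omega)]
  · rw [abs_of_nonneg hp0] at hpT
    have : ∃ q ∈ Finset.Icc ((l.length : ℤ) + 1) ((l.length : ℤ) + j + 2), Cyc F R x.1 q := by
      by_contra hcon
      push Not at hcon
      have h1 : ((Finset.Icc ((l.length : ℤ) + 1) ((l.length : ℤ) + j + 2) : Finset ℤ) : Set ℤ)
          ⊆ NC F R x.1 := fun q hq => hcon q (by simpa using hq)
      have h2 := Set.ncard_le_ncard h1 hfin
      rw [Set.ncard_coe_finset, Int.card_Icc] at h2
      omega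
    obtain ⟨q, hq1, hq2⟩ := this
    rw [Finset.mem_Icc] at hq1
    obtain ⟨y, hy, hy1, hy2⟩ := cut_right hR x.2 hq2
    have h3 : NC F R y ⊆ NC F R x.1 \ {p} := by
      intro i hi
      obtain ⟨h4, h5⟩ := hy2 i hi
      exact ⟨h4, by simp only [Set.mem_singleton_iff]; omega⟩
    have h4 := Set.ncard_le_ncard h3 (hfin.subset Set.sdiff_subset)
    rw [Set.ncard_sdiff_singleton_of_mem hp] at h4
    have h5 := hl y hy (by omega) 0
    refine Eq.trans ?_ h5
    apply run_congr
    intro i hi1 hi2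
    rw [hy1 i (by omega)]

/-- contrapositive of `localj` -/
theorem localj' {j : ℕ} {l : List A} (hl : D.Zw R j l) (x : SF F)
    (hc : (NC F R x.1).ncard ≤ j + 1) (hm : D.wd l • x ≠ x) :
    ∀ p ∈ NC F R x.1, |p| ≤ (l.length : ℤ) + j + 2 := by
  intro p hp
  by_contra hcon
  apply hm
  rw [D.wd_smul0, D.localj hR hl x hc ⟨p, hp, by omega⟩, shS_zero]

theorem wd_abs (l : List A) (x : SF F) : ∃ s : ℤ, |s| ≤ l.length ∧ D.wd l • x = shS s x := by
  refine ⟨run x.1 l 0, ?_, D.wd_smul0 l x⟩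
  have := run_bounds x.1 l 0
  exact abs_le.2 ⟨by omega, by omega⟩

theorem commutator_mem {j : ℕ} (hj : D.Nj R (j + 1) = ⊥) {κ k : Γ} (hκ : κ ∈ D.Nj R 0)
    (hk : k ∈ D.Nj R j) {c : List A} (hc : Cox c) (H : Subgroup Γ) [H.Normal] [H.FiniteIndex] :
    κ⁻¹ * k * κ * k⁻¹ ∈ H := by
  have hk' := hk
  obtain ⟨lκ, rfl, hlκ⟩ := hκ
  obtain ⟨lk, rfl, hlk⟩ := hk
  obtain ⟨M, hM0, -, hM⟩ := Subgroup.exists_pow_mem_of_index_ne_zero
    (H := H) Subgroup.FiniteIndex.index_ne_zero (D.wd c)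
  set κ := D.wd lκ with hκdef
  set k := D.wd lk with hkdef
  let T : ℤ := (lk.length : ℤ) + j + 2
  obtain ⟨n, hn⟩ : ∃ n : ℕ, (lκ.length : ℤ) + 1 + T + lκ.length < n :=
    ⟨((lκ.length : ℤ) + 1 + T + lκ.length + 1).toNat, by omega⟩
  let v := pw c (M * n)
  have hv : D.wd v ∈ H := by
    simp only [v]
    rw [D.wd_pw, pow_mul]
    exact H.pow_mem hM n
  have hMn : (n : ℤ) ≤ ((M * n : ℕ) : ℤ) := by
    exact_mod_cast Nat.le_mul_of_pos_left n hM0
  let h := D.wd v * κ * (D.wd v)⁻¹ * κ⁻¹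
  have hh : h ∈ H := by
    have e : h = D.wd v * (κ * (D.wd v)⁻¹ * κ⁻¹) := by simp only [h]; group
    rw [e]
    exact H.mul_mem hv (Subgroup.Normal.conj_mem inferInstance _ (H.inv_mem hv) κ)
  have claim1 : ∀ y : SF F, (∀ p ∈ NC F R y.1, |p| ≤ T) → h • y = κ⁻¹ • y := by
    intro y hy
    have e : h • y = D.wd v • κ • (D.wd v)⁻¹ • κ⁻¹ • y := by
      simp only [h, mul_smul]
    rw [e]
    obtain ⟨s, hs, hsy⟩ : ∃ s : ℤ, |s| ≤ lκ.length ∧ κ⁻¹ • y = shS s y := by
      have := D.wd_abs hR lκ.reverse y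
      rwa [D.wd_reverse, List.length_reverse] at this
    rw [hsy]
    have e2 : (D.wd v)⁻¹ • shS s y = shS (run y.1 v.reverse s) y := by
      rw [← D.wd_reverse, D.wd_smul]
    have h3 : ((M * n : ℕ) : ℤ) ≤ |run y.1 v.reverse s - s| := by
      have := run_pw_abs (D.proper y) hc (M * n) (run y.1 v.reverse s)
      rw [run_reverse' (D.proper y)] at this
      rwa [abs_sub_comm] at this
    have h4 : κ • (D.wd v)⁻¹ • shS s y = (D.wd v)⁻¹ • shS s y := by
      rw [e2, hκdef, D.wd_smul0]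
      rw [D.local0 hR hlκ _ _ 0 rfl, shS_zero]
      intro p hp
      rw [shS_val, nc_sh] at hp
      have h5 := hy _ hp
      have h6 : |run y.1 v.reverse s - s| ≤ |p + run y.1 v.reverse s| + |p| + |s| := by
        have e3 : run y.1 v.reverse s - s = (p + run y.1 v.reverse s) - (p + s) := by ring
        rw [e3]
        calc |(p + run y.1 v.reverse s) - (p + s)| ≤ |p + run y.1 v.reverse s| + |p + s| :=
              abs_sub _ _
          _ ≤ |p + run y.1 v.reverse s| + (|p| + |s|) := by gcongr; exact abs_add_le _ _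
          _ = _ := by ring
      omega
    rw [h4, smul_inv_smul]
  have hN1 : h * k * h⁻¹ ∈ D.Nj R j := (D.Nj_normal R j).conj_mem _ hk' h
  have hN2 : κ⁻¹ * k * κ ∈ D.Nj R j := by
    have := (D.Nj_normal R j).conj_mem _ hk' κ⁻¹
    rwa [inv_inv] at this
  have hkey : ∀ y : SF F, (NC F R y.1).ncard = j + 1 →
      (h * k * h⁻¹) • y = (κ⁻¹ * k * κ) • y := by
    intro y hy
    have hcard : ∀ g : Γ, (NC F R (g • y).1).ncard = j + 1 := by
      intro g
      obtain ⟨s, hs⟩ := D.smul_eq g y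
      rw [hs, shS_val, nc_sh_card, hy]
    simp only [mul_smul]
    by_cases h1 : k • κ • y = κ • y
    · rw [h1, inv_smul_smul]
      by_cases h2 : k • h⁻¹ • y = h⁻¹ • y
      · rw [h2, smul_inv_smul]
      · exfalso
        have h3 := claim1 (h⁻¹ • y) (D.localj' hR hlk _ (hcard _).le h2)
        rw [smul_inv_smul, eq_inv_smul_iff] at h3
        apply h2
        rw [← h3]
        exact h1
    · have h3 := claim1 (κ • y) (D.localj' hR hlk _ (hcard _).le h1)
      rw [inv_smul_smul] at h3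
      have h4 : h⁻¹ • y = κ • y := by rw [inv_smul_eq_iff]; exact h3.symm
      rw [h4]
      have h5 : k • k • κ • y ≠ k • κ • y := fun h => h1 (smul_left_cancel _ h)
      have hc2 : (NC F R (k • κ • y).1).ncard ≤ j + 1 := by
        rw [smul_smul]; exact (hcard _).le
      exact claim1 (k • κ • y) (D.localj' hR hlk _ hc2 h5)
  have he : (h * k * h⁻¹) * (κ⁻¹ * k * κ)⁻¹ = 1 := by
    have : (h * k * h⁻¹) * (κ⁻¹ * k * κ)⁻¹ ∈ D.Nj R (j + 1) := by
      apply D.mem_Nj_succ hR ((D.Nj R j).mul_mem hN1 ((D.Nj R j).inv_mem hN2))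
      intro x hx
      rw [mul_smul, hkey, smul_inv_smul]
      obtain ⟨s, hs⟩ := D.smul_eq (κ⁻¹ * k * κ)⁻¹ x
      rw [hs, shS_val, nc_sh_card, hx]
    rw [hj] at this
    exact this
  have e : κ⁻¹ * k * κ = h * k * h⁻¹ := (mul_inv_eq_one.1 he).symm
  rw [e]
  have e2 : h * k * h⁻¹ * k⁻¹ = h * (k * h⁻¹ * k⁻¹) := by group
  rw [e2]
  exact H.mul_mem hh (Subgroup.Normal.conj_mem inferInstance _ (H.inv_mem hh) k)

end Dat

end Pool.Agent.Lib_helper71.AF
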