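import Pool.Agent.Lib_helper71.AF.StepD

/-! Assembly of the main direction and the easy direction. -/

namespace Pool.Agent.Lib_helper71.AF

set_option linter.unusedSectionVars false
set_option linter.unusedVariables false

variable {A : Type*} {F : Set (List A)} [DecidableEq A]

namespace Dat

variable {Γ : Type*} [Group Γ] [MulAction Γ (SF F)] (D : Dat F Γ)
include D

/-- if a nontrivial element fixes all periodic points, the group is not residually finite -/
theorem not_rf [Fintype A] {R : ℕ} (hR : Loc F R) {g : Γ} (hg1 : g ≠ 1)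
    (hg : ∀ z : SF F, Per z.1 → g • z = z) : ¬ RF Γ := by
  intro hRF
  obtain ⟨l, rfl⟩ := D.exists_wd g
  have h0 : D.Nj R 0 ≠ ⊥ := by
    apply D.stepA hR ?_ hg1
    intro x hx
    exact D.triv_S0 hR hg x (fun i => D.cyc_of_card hR hx i)
  classical
  have hex := D.Nj_top hR
  obtain ⟨j, hj⟩ : ∃ j, Nat.find hex = j + 1 := by
    refine ⟨Nat.find hex - 1, ?_⟩
    have : Nat.find hex ≠ 0 := by
      intro h
      apply h0
      rw [← h]
      exact Nat.find_spec hex
    omega
  have hj1 : D.Nj R (j + 1) = ⊥ := by rw [← hj]; exact Nat.find_spec hex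
  have hj0 : D.Nj R j ≠ ⊥ := Nat.find_min hex (by omega)
  have hcom : ∀ k ∈ D.Nj R j, ∀ k' ∈ D.Nj R j, k * k' = k' * k := by
    intro k hk k' hk'
    exact D.stepB hR hRF hj1 (D.Nj_mono R (Nat.zero_le j) hk') hk
  obtain ⟨M, hMn, hML, k0, hk0, x0, hx0c, hx0m, hfaith⟩ := D.stepV hR hj1 hj0 hcom
  obtain ⟨s, hs1, hs2, hs3, hs4⟩ := D.stepC hR hcom (hML hk0) hx0c hx0m
  obtain ⟨t, ht⟩ : ∃ t, s = 2 * t - 1 := ⟨(s + 1) / 2, by omega⟩
  have hNC := D.nc_of_moved hR (hML hk0) hx0m
  have hnp := D.not_per_of_nc hR hNC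
  obtain ⟨p, hp⟩ := hNC
  have hL : LineD D (shS t x0) M := by
    refine ⟨?_, ?_, hMn, ?_, ?_, ?_, ⟨k0, hk0, ?_⟩⟩
    · intro i
      have := hs3 (i + t - 1)
      simp only [shS_val, sh_apply]
      rw [show i + t - 1 + 1 = i + t by ring] at this
      rw [this]
      exact congrArg x0.1 (by omega)
    · intro hper
      apply D.not_per_of_nc hR (x := shS t x0) ?_ hper
      exact ⟨p - t, by rw [shS_val, nc_sh]; simpa using hp⟩
    · intro m hm n
      rw [shS_shS]
      rcases hs4 m (hML hm) (n + t) with h | h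
      · left; exact h
      · right
        rw [h, shS_shS]
        congr 1
        rw [ht]; ring
    · intro m hm
      have hmj := hML hm
      obtain ⟨l', rfl, hl'⟩ := hmj
      refine ⟨l'.length + j + 2 + |p| + |t|, ?_⟩
      intro n hn
      rw [shS_shS] at hn
      have h1 := D.localj' hR hl' (shS (n + t) x0) (by rw [shS_val, nc_sh_card]; exact hx0c) hn
        (p - (n + t)) (by rw [shS_val, nc_sh]; simpa using hp)
      have h2 : |n| ≤ |p - (n + t)| + |p| + |t| := by
        have e : n = p - (p - (n + t)) - t := by ring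
        calc |n| = |p - (p - (n + t)) - t| := by rw [← e]
          _ ≤ |p - (p - (n + t))| + |t| := abs_sub _ _
          _ ≤ (|p| + |p - (n + t)|) + |t| := by gcongr; exact abs_sub _ _
          _ = _ := by ring
      omega
    · intro m hm h
      apply hfaith m hm
      intro n
      have := h (n - t)
      rw [shS_shS] at this
      rwa [show n - t + t = n by ring] at this
    · rintro rfl
      exact hx0m (one_smul _ _)
  exact D.stepD hL hR hRF (p := p - t) (by rw [shS_val, nc_sh]; simpa using hp)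

/-- the easy direction -/
theorem rf_of_per (h : ∀ g : Γ, (∀ z : SF F, Per z.1 → g • z = z) → g = 1) (g : Γ)
    (hg : g ≠ 1) : ∃ H : Subgroup Γ, H.FiniteIndex ∧ g ∉ H := by
  obtain ⟨z, hz, hgz⟩ : ∃ z : SF F, Per z.1 ∧ g • z ≠ z := by
    by_contra hcon
    push Not at hcon
    exact hg (h g hcon)
  refine ⟨MulAction.stabilizer Γ z, ?_, hgz⟩
  obtain ⟨p, hp0, hp⟩ := hz
  have hfin : (MulAction.orbit Γ z).Finite := by
    apply ((Set.finite_Ico (0 : ℤ) p).image (fun i => shS i z)).subset
    rintro _ ⟨g, rfl⟩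
    obtain ⟨s, hs⟩ := D.smul_eq g z
    refine ⟨s % p, ⟨Int.emod_nonneg _ (by omega), Int.emod_lt_of_pos _ (by omega)⟩, ?_⟩
    simp only
    rw [hs]
    apply Subtype.ext
    funext i
    simp only [shS_val, sh_apply]
    rw [← per_mul hp (s / p) (i + s % p)]
    have := Int.emod_add_mul_ediv s p
    exact congrArg z.1 (by linarith)
  have : Finite (MulAction.orbit Γ z) := hfin
  have h2 : Finite (Γ ⧸ MulAction.stabilizer Γ z) :=
    Finite.of_equiv _ (MulAction.orbitEquivQuotientStabilizer Γ z)
  exact Subgroup.finiteIndex_of_finite_quotient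

end Dat

end Pool.Agent.Lib_helper71.AF
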