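import Mathlib

/-! Definitions used in the statement: the subshift `S_F`, the local shift involutions and the
group they generate. -/

namespace Pool.Agent.Lib_helper71.AF

variable {A : Type*}

/-- the finite subword `x i, x (i+1), ..., x (i+k-1)` of `x` -/
def word (x : ℤ → A) (i : ℤ) (k : ℕ) : List A := (List.range k).map fun j : ℕ => x (i + j)

/-- the subshift `S_F`: the bi-infinite sequences without a finite subword in `F` -/
def SF (F : Set (List A)) : Set (ℤ → A) := {x | ∀ (i : ℤ) (k : ℕ), word x i k ∉ F}

/-- `x` is shift-periodic -/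
def Per (x : ℤ → A) : Prop := ∃ p : ℕ, 0 < p ∧ ∀ i : ℤ, x (i + p) = x i

variable [DecidableEq A]

/-- the local shift involution `φ_a` on sequences: shift to the left if `x 1 = a`, to the right
if `x 0 = a`, and the identity otherwise -/
def phiMap (a : A) (x : ℤ → A) : ℤ → A :=
  if x 1 = a then fun n => x (n + 1) else if x 0 = a then fun n => x (n - 1) else x

theorem phiMap_mem {F : Set (List A)} (a : A) {x : ℤ → A} (hx : x ∈ SF F) :
    phiMap a x ∈ SF F := by
  have key : ∀ s : ℤ, (fun n => x (n + s)) ∈ SF F := by
    intro s i k h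
    apply hx (i + s) k
    have e : word (fun n => x (n + s)) i k = word x (i + s) k := by
      unfold word
      apply List.map_congr_left
      intro j _
      simp only
      congr 1; ring
    rwa [e] at h
  unfold phiMap
  split_ifs
  · exact key 1
  · exact key (-1)
  · exact hx

theorem phiMap_phiMap {F : Set (List A)} (haa : ∀ a, [a, a] ∈ F) (a : A) {x : ℤ → A}
    (hx : x ∈ SF F) : phiMap a (phiMap a x) = x := by
  have hne : x 0 ≠ x 1 := by
    intro h
    apply hx 0 2
    have e : word x 0 2 = [x 0, x 1] := by simp [word, List.range_succ]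
    rw [e, ← h]
    exact haa _
  by_cases h1 : x 1 = a
  · have e : phiMap a x = fun n => x (n + 1) := by simp [phiMap, h1]
    by_cases h2 : x 2 = a
    · exfalso
      apply hx 1 2
      have e : word x 1 2 = [x 1, x 2] := by simp [word, List.range_succ]
      rw [e, h1, h2]
      exact haa _
    · rw [e]
      simp [phiMap, h1, h2]
  · by_cases h2 : x 0 = a
    · have e : phiMap a x = fun n => x (n - 1) := by simp [phiMap, h1, h2]
      rw [e]
      simp [phiMap, h2]
    · simp [phiMap, h1, h2]

variable [TopologicalSpace A] [DiscreteTopology A]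

theorem phiMap_continuous (a : A) : Continuous (phiMap a : (ℤ → A) → (ℤ → A)) := by
  apply continuous_pi
  intro n
  have e : (fun x : ℤ → A => phiMap a x n) =
      (fun q : A × A × A × A × A => if q.1 = a then q.2.1 else if q.2.2.1 = a then q.2.2.2.1
        else q.2.2.2.2) ∘ (fun x : ℤ → A => (x 1, x (n + 1), x 0, x (n - 1), x n)) := by
    funext x
    simp only [Function.comp, phiMap]
    split_ifs <;> rfl
  rw [e]
  apply continuous_of_discreteTopology.comp
  fun_prop

/-- the homeomorphism `φ_a` of `S_F` (product topology, `A` discrete) -/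
def phi (F : Set (List A)) (haa : ∀ a, [a, a] ∈ F) (a : A) : SF F ≃ₜ SF F where
  toFun x := ⟨phiMap a x.1, phiMap_mem a x.2⟩
  invFun x := ⟨phiMap a x.1, phiMap_mem a x.2⟩
  left_inv x := Subtype.ext (phiMap_phiMap haa a x.2)
  right_inv x := Subtype.ext (phiMap_phiMap haa a x.2)
  continuous_toFun := (((phiMap_continuous a).comp continuous_subtype_val).subtype_mk _)
  continuous_invFun := (((phiMap_continuous a).comp continuous_subtype_val).subtype_mk _)

/-- the group `G_F` generated by the `φ_a` in the homeomorphism group of `S_F` -/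
def GF (F : Set (List A)) (haa : ∀ a, [a, a] ∈ F) : Subgroup (SF F ≃ₜ SF F) :=
  Subgroup.closure (Set.range (phi F haa))

end Pool.Agent.Lib_helper71.AF
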