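import Pool.Agent.Lib_helper71.AF.Core

/-! The theorem for the concrete group `G_F`. -/

namespace Pool.Agent.Lib_helper71.AF

variable {A : Type*} [DecidableEq A] [TopologicalSpace A] [DiscreteTopology A]

/-- the action of `G_F` on `S_F` by evaluation -/
@[reducible] def actGF (F : Set (List A)) (haa : ∀ a, [a, a] ∈ F) :
    MulAction (GF F haa) (SF F) where
  smul g x := g.1 x
  one_smul _ := rfl
  mul_smul _ _ _ := rfl

attribute [local instance] actGF in
/-- the data of `G_F` -/
def datGF (F : Set (List A)) (haa : ∀ a, [a, a] ∈ F) : Dat F (GF F haa) where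
  φ a := ⟨phi F haa a, Subgroup.subset_closure ⟨a, rfl⟩⟩
  smul a x := by
    apply Subtype.ext
    funext i
    show phiMap a x.1 i = x.1 (i + mv x.1 a 0)
    unfold phiMap mv
    simp only [zero_add, zero_sub]
    split_ifs
    · rfl
    · rfl
    · simp
  gen := by
    have e : Set.range (fun a => (⟨phi F haa a, Subgroup.subset_closure ⟨a, rfl⟩⟩ : GF F haa)) =
        ((↑) : GF F haa → (SF F ≃ₜ SF F)) ⁻¹' Set.range (phi F haa) := by
      ext g
      simp only [Set.mem_range, Set.mem_preimage]
      constructor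
      · rintro ⟨a, rfl⟩
        exact ⟨a, rfl⟩
      · rintro ⟨a, ha⟩
        exact ⟨a, Subtype.ext ha⟩
    rw [e]
    exact Subgroup.closure_closure_coe_preimage
  faithful g h := Subtype.ext (Homeomorph.ext h)
  aa := haa

theorem main [Fintype A] (F : Set (List A)) (haa : ∀ a, [a, a] ∈ F)
    (hfin : ∃ F' : Set (List A), F'.Finite ∧ SF F' = SF F) :
    Group.ResiduallyFinite (GF F haa) ↔
      ∀ g ∈ GF F haa, (∀ x : SF F, Per x.1 → g x = x) → g = 1 := by
  let _ := actGF F haa
  let D := datGF F haa
  constructor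
  · intro hRF g hg hper
    obtain ⟨F', hF', hFF⟩ := hfin
    obtain ⟨R, hR⟩ : ∃ R : ℕ, ∀ w ∈ F', w.length < R := by
      obtain ⟨R, hR⟩ := (hF'.image List.length).bddAbove
      exact ⟨R + 1, fun w hw => Nat.lt_succ_of_le (hR ⟨w, hw, rfl⟩)⟩
    have hL : Loc F R := by
      have := loc_of_length hR
      unfold Loc at this ⊢
      rwa [hFF] at this
    by_contra hne
    apply D.not_rf hL (g := ⟨g, hg⟩) (fun h => hne (congrArg Subtype.val h)) hper
    intro k hk
    obtain ⟨H, hH⟩ := Group.exists_finiteIndexNormalSubgroup_notMem k hk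
    exact ⟨H.toSubgroup, inferInstance, inferInstance, hH⟩
  · intro h
    rw [Group.residuallyFinite_iff_exists_finiteIndex]
    intro g hg
    apply D.rf_of_per ?_ g hg
    intro g hg'
    apply Subtype.ext
    exact h g.1 g.2 hg'

end Pool.Agent.Lib_helper71.AF
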