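import Mathlib

/-! Token dynamics on a line with labelled edges. -/

namespace Pool.Agent.Lib_helper71.AF

set_option linter.unusedSectionVars false

variable {A : Type*}

/-- neighbouring entries are distinct -/
def Proper (x : ℤ → A) : Prop := ∀ i, x i ≠ x (i + 1)

variable [DecidableEq A]

/-- one move of the token -/
def mv (x : ℤ → A) (a : A) (n : ℤ) : ℤ :=
  if x (n + 1) = a then n + 1 else if x n = a then n - 1 else n

/-- run a list of letters, head first -/
def run (x : ℤ → A) : List A → ℤ → ℤ
  | [], n => n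
  | a :: l, n => run x l (mv x a n)

@[simp] theorem run_nil (x : ℤ → A) (n : ℤ) : run x [] n = n := rfl
@[simp] theorem run_cons (x : ℤ → A) (a : A) (l : List A) (n : ℤ) :
    run x (a :: l) n = run x l (mv x a n) := rfl

theorem mv_right {x : ℤ → A} {a : A} {n : ℤ} (h : x (n + 1) = a) : mv x a n = n + 1 := by
  simp [mv, h]

theorem mv_left {x : ℤ → A} (hx : Proper x) {a : A} {n : ℤ} (h : x n = a) :
    mv x a n = n - 1 := by
  have h2 : x (n + 1) ≠ a := by rw [← h]; exact (hx n).symm
  simp [mv, h2, h]

theorem mv_stay {x : ℤ → A} {a : A} {n : ℤ} (h1 : x (n + 1) ≠ a) (h2 : x n ≠ a) :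
    mv x a n = n := by
  simp [mv, h1, h2]

theorem mv_mv {x : ℤ → A} (hx : Proper x) (a : A) (n : ℤ) : mv x a (mv x a n) = n := by
  by_cases h1 : x (n + 1) = a
  · rw [mv_right h1, mv_left hx h1]; ring
  · by_cases h2 : x n = a
    · rw [mv_left hx h2, mv_right (by simpa using h2)]; ring
    · rw [mv_stay h1 h2, mv_stay h1 h2]

theorem mv_abs (x : ℤ → A) (a : A) (n : ℤ) : |mv x a n - n| ≤ 1 := by
  unfold mv
  split_ifs <;> simp

theorem mv_bounds (x : ℤ → A) (a : A) (n : ℤ) : n - 1 ≤ mv x a n ∧ mv x a n ≤ n + 1 := by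
  unfold mv
  split_ifs <;> constructor <;> omega

theorem run_append (x : ℤ → A) (l l' : List A) (n : ℤ) :
    run x (l ++ l') n = run x l' (run x l n) := by
  induction l generalizing n with
  | nil => rfl
  | cons a l ih => simp [ih]

theorem run_reverse {x : ℤ → A} (hx : Proper x) (l : List A) (n : ℤ) :
    run x l.reverse (run x l n) = n := by
  induction l generalizing n with
  | nil => rfl
  | cons a l ih =>
    rw [List.reverse_cons, run_append, run_cons x a l n, ih]
    simp [mv_mv hx]

theorem run_reverse' {x : ℤ → A} (hx : Proper x) (l : List A) (n : ℤ) :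
    run x l (run x l.reverse n) = n := by
  have := run_reverse hx l.reverse n
  simpa using this

theorem run_inj {x : ℤ → A} (hx : Proper x) (l : List A) {m n : ℤ}
    (h : run x l m = run x l n) : m = n := by
  rw [← run_reverse hx l m, h, run_reverse hx l n]

theorem run_bounds (x : ℤ → A) (l : List A) (n : ℤ) :
    n - l.length ≤ run x l n ∧ run x l n ≤ n + l.length := by
  induction l generalizing n with
  | nil => simp
  | cons a l ih =>
    have h1 := mv_bounds x a n
    have h2 := ih (mv x a n)
    simp only [run_cons, List.length_cons, Nat.cast_add, Nat.cast_one]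
    constructor <;> omega

theorem mv_congr {x y : ℤ → A} (a : A) (n : ℤ) (h0 : x n = y n) (h1 : x (n + 1) = y (n + 1)) :
    mv x a n = mv y a n := by
  unfold mv
  rw [h0, h1]

/-- locality -/
theorem run_congr {x y : ℤ → A} (l : List A) (n : ℤ)
    (h : ∀ i, n - l.length ≤ i → i ≤ n + l.length → x i = y i) :
    run x l n = run y l n := by
  induction l generalizing n with
  | nil => rfl
  | cons a l ih =>
    have hl : ((a :: l).length : ℤ) = l.length + 1 := by simp
    rw [hl] at h
    rw [run_cons, run_cons, mv_congr a n (h n (by omega) (by omega)) (h (n + 1) (by omega) (by omega))]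
    have h1 := mv_bounds y a n
    apply ih
    intro i hi1 hi2
    exact h i (by omega) (by omega)

theorem mv_shift (x : ℤ → A) (s : ℤ) (a : A) (n : ℤ) :
    mv (fun i => x (i + s)) a n + s = mv x a (n + s) := by
  have e : n + 1 + s = n + s + 1 := by ring
  unfold mv
  simp only [e]
  split_ifs <;> ring

theorem run_shift (x : ℤ → A) (s : ℤ) (l : List A) (n : ℤ) :
    run (fun i => x (i + s)) l n + s = run x l (n + s) := by
  induction l generalizing n with
  | nil => rfl
  | cons a l ih => rw [run_cons, run_cons, ih, mv_shift]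

/-! ### Reflection -/

theorem mv_reflect {x : ℤ → A} (hx : Proper x) (c : ℤ) (a : A) (n : ℤ) :
    mv (fun i => x (c + 1 - i)) a (c - n) = c - mv x a n := by
  by_cases h1 : x (n + 1) = a
  · rw [mv_right h1]
    have hx' : Proper (fun i => x (c + 1 - i)) := by
      intro i
      have := hx (c + 1 - (i + 1))
      simp only [ne_eq]
      intro h
      apply this
      rw [← h]
      congr 1
      ring
    rw [mv_left hx' (by rw [← h1]; congr 1; ring)]
    ring
  · by_cases h2 : x n = a
    · rw [mv_left hx h2, mv_right (by rw [← h2]; congr 1; ring)]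
      ring
    · rw [mv_stay h1 h2, mv_stay]
      · have : c + 1 - (c - n + 1) = n := by ring
        simpa [this] using h2
      · have : c + 1 - (c - n) = n + 1 := by ring
        simpa [this] using h1

theorem run_reflect {x : ℤ → A} (hx : Proper x) (c : ℤ) (l : List A) (n : ℤ) :
    run (fun i => x (c + 1 - i)) l (c - n) = c - run x l n := by
  induction l generalizing n with
  | nil => rfl
  | cons a l ih => rw [run_cons, run_cons, mv_reflect hx, ih]

theorem Proper.reflect {x : ℤ → A} (hx : Proper x) (c : ℤ) :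
    Proper (fun i => x (c + 1 - i)) := by
  intro i
  have := hx (c + 1 - (i + 1))
  simp only [ne_eq]
  intro h
  apply this
  rw [← h]
  congr 1
  ring

/-! ### Coxeter words -/

/-- `a` is applied before `b` -/
def Bef (l : List A) (a b : A) : Prop := List.Sublist [a, b] l

theorem bef_cons {l : List A} {c a b : A} :
    Bef (c :: l) a b ↔ (a = c ∧ b ∈ l) ∨ Bef l a b := by
  unfold Bef
  constructor
  · intro h
    cases h with
    | cons _ h => exact Or.inr h
    | cons_cons _ h => exact Or.inl ⟨rfl, by simpa using h⟩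
  · rintro (⟨rfl, h⟩ | h)
    · exact List.Sublist.cons_cons _ (by simpa using h)
    · exact List.Sublist.cons _ h

theorem Bef.mem_left {l : List A} {a b : A} (h : Bef l a b) : a ∈ l := h.subset (by simp)
theorem Bef.mem_right {l : List A} {a b : A} (h : Bef l a b) : b ∈ l := h.subset (by simp)

theorem bef_total {l : List A} {a b : A} (ha : a ∈ l) (hb : b ∈ l) (hab : a ≠ b) :
    Bef l a b ∨ Bef l b a := by
  induction l with
  | nil => simp at ha
  | cons c l ih =>
    rw [bef_cons, bef_cons]
    by_cases h1 : a = c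
    · left; left
      refine ⟨h1, ?_⟩
      rcases List.mem_cons.1 hb with h | h
      · exact absurd (h1.trans h.symm) hab
      · exact h
    · have ha' : a ∈ l := by
        rcases List.mem_cons.1 ha with h | h
        · exact absurd h h1
        · exact h
      by_cases h2 : b = c
      · right; left; exact ⟨h2, ha'⟩
      · have hb' : b ∈ l := by
          rcases List.mem_cons.1 hb with h | h
          · exact absurd h h2
          · exact h
        rcases ih ha' hb' with h | h
        · left; right; exact h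
        · right; right; exact h

theorem bef_asymm {l : List A} (hl : l.Nodup) {a b : A} (h : Bef l a b) : ¬ Bef l b a := by
  induction l with
  | nil => simp [Bef] at h
  | cons c l ih =>
    rw [List.nodup_cons] at hl
    rw [bef_cons] at h ⊢
    rintro (⟨h1, h2⟩ | h2)
    · rcases h with ⟨h3, h4⟩ | h4
      · exact hl.1 (h1 ▸ h4)
      · exact hl.1 (h1 ▸ h4.mem_right)
    · rcases h with ⟨h3, h4⟩ | h4
      · exact hl.1 (h3 ▸ h2.mem_right)
      · exact ih hl.2 h4 h2

theorem run_arrived {x : ℤ → A} (l : List A) (hl : l.Nodup) (n : ℤ) (hn : x n ∉ l) :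
    ∃ m, n ≤ m ∧ run x l n = m ∧ (∀ i, n < i → i ≤ m → x i ∈ l) ∧
      (∀ i, n < i → i < m → Bef l (x i) (x (i + 1))) ∧
      (n < m → ¬ Bef l (x m) (x (m + 1))) ∧ (m = n → x (n + 1) ∉ l) := by
  induction l generalizing n with
  | nil =>
    refine ⟨n, le_refl _, rfl, ?_, ?_, ?_, ?_⟩
    · intro i h1 h2; omega
    · intro i h1 h2; omega
    · intro h; omega
    · simp
  | cons c l ih =>
    rw [List.nodup_cons] at hl
    obtain ⟨hc, hl⟩ := hl
    rw [List.mem_cons, not_or] at hn
    obtain ⟨hnc, hnl⟩ := hn
    by_cases h1 : x (n + 1) = c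
    · obtain ⟨m, hm1, hm2, hm3, hm4, hm5, hm6⟩ := ih hl (n + 1) (by rw [h1]; exact hc)
      refine ⟨m, by omega, ?_, ?_, ?_, ?_, ?_⟩
      · rw [run_cons, mv_right h1, hm2]
      · intro i hi1 hi2
        rcases eq_or_lt_of_le (show n + 1 ≤ i by omega) with h | h
        · rw [← h, h1]; simp
        · exact List.mem_cons_of_mem _ (hm3 i h hi2)
      · intro i hi1 hi2
        rw [bef_cons]
        rcases eq_or_lt_of_le (show n + 1 ≤ i by omega) with h | h
        · left
          subst h
          exact ⟨h1, hm3 _ (by omega) (by omega)⟩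
        · right; exact hm4 i h hi2
      · intro _
        rw [bef_cons, not_or]
        rcases eq_or_lt_of_le hm1 with h | h
        · subst h
          have h6 := hm6 rfl
          refine ⟨fun hh => h6 hh.2, fun hh => hc (h1 ▸ hh.mem_left)⟩
        · refine ⟨fun hh => hc (hh.1 ▸ hm3 m h le_rfl), hm5 h⟩
      · intro h; omega
    · obtain ⟨m, hm1, hm2, hm3, hm4, hm5, hm6⟩ := ih hl n hnl
      refine ⟨m, hm1, ?_, ?_, ?_, ?_, ?_⟩
      · rw [run_cons, mv_stay h1 hnc, hm2]
      · intro i hi1 hi2
        exact List.mem_cons_of_mem _ (hm3 i hi1 hi2)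
      · intro i hi1 hi2
        rw [bef_cons]; right; exact hm4 i hi1 hi2
      · intro h
        rw [bef_cons, not_or]
        exact ⟨fun hh => hc (hh.1 ▸ hm3 m h le_rfl), hm5 h⟩
      · intro h
        rw [List.mem_cons, not_or]
        exact ⟨h1, hm6 h⟩

/-- a token whose right letter comes first moves right, to the next such vertex -/
theorem run_right {x : ℤ → A} (l : List A) (hl : l.Nodup) (n : ℤ)
    (hn : Bef l (x (n + 1)) (x n)) :
    ∃ m, n < m ∧ run x l n = m ∧ (∀ i, n < i → i ≤ m → x i ∈ l) ∧
      (∀ i, n < i → i < m → Bef l (x i) (x (i + 1))) ∧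
      ¬ Bef l (x m) (x (m + 1)) := by
  induction l with
  | nil => simp [Bef] at hn
  | cons c l ih =>
    rw [List.nodup_cons] at hl
    obtain ⟨hc, hl⟩ := hl
    rw [bef_cons] at hn
    rcases hn with ⟨h1, h2⟩ | hn
    · obtain ⟨m, hm1, hm2, hm3, hm4, hm5, hm6⟩ :=
        run_arrived (x := x) l hl (n + 1) (by rw [h1]; exact hc)
      refine ⟨m, by omega, ?_, ?_, ?_, ?_⟩
      · rw [run_cons, mv_right h1, hm2]
      · intro i hi1 hi2
        rcases eq_or_lt_of_le (show n + 1 ≤ i by omega) with h | h
        · rw [← h, h1]; simp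
        · exact List.mem_cons_of_mem _ (hm3 i h hi2)
      · intro i hi1 hi2
        rw [bef_cons]
        rcases eq_or_lt_of_le (show n + 1 ≤ i by omega) with h | h
        · left
          subst h
          exact ⟨h1, hm3 _ (by omega) (by omega)⟩
        · right; exact hm4 i h hi2
      · rw [bef_cons, not_or]
        rcases eq_or_lt_of_le hm1 with h | h
        · subst h
          have h6 := hm6 rfl
          refine ⟨fun hh => h6 hh.2, fun hh => hc (h1 ▸ hh.mem_left)⟩
        · refine ⟨fun hh => hc (hh.1 ▸ hm3 m h le_rfl), hm5 h⟩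
    · obtain ⟨m, hm1, hm2, hm3, hm4, hm5⟩ := ih hl hn
      have h1 : x (n + 1) ≠ c := fun h => hc (h ▸ hn.mem_left)
      have h2 : x n ≠ c := fun h => hc (h ▸ hn.mem_right)
      refine ⟨m, hm1, ?_, ?_, ?_, ?_⟩
      · rw [run_cons, mv_stay h1 h2, hm2]
      · intro i hi1 hi2
        exact List.mem_cons_of_mem _ (hm3 i hi1 hi2)
      · intro i hi1 hi2
        rw [bef_cons]; right; exact hm4 i hi1 hi2
      · rw [bef_cons, not_or]
        exact ⟨fun hh => hc (hh.1 ▸ hm3 m hm1 le_rfl), hm5⟩

/-- vertex `n` is moved right by the word `l` -/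
def RT (x : ℤ → A) (l : List A) (n : ℤ) : Prop := Bef l (x (n + 1)) (x n)

/-- `l` lists every letter once -/
structure Cox (l : List A) : Prop where
  nodup : l.Nodup
  mem : ∀ a, a ∈ l

theorem not_rt {x : ℤ → A} (hx : Proper x) {l : List A} (hl : Cox l) {n : ℤ} :
    ¬ RT x l n ↔ Bef l (x n) (x (n + 1)) := by
  constructor
  · intro h
    rcases bef_total (hl.mem (x n)) (hl.mem (x (n + 1))) (hx n) with h1 | h1
    · exact h1
    · exact absurd h1 h
  · intro h
    exact bef_asymm hl.nodup h

theorem run_rt {x : ℤ → A} (hx : Proper x) {l : List A} (hl : Cox l) {n : ℤ} (h : RT x l n) :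
    n < run x l n ∧ RT x l (run x l n) ∧ ∀ i, n < i → i < run x l n → ¬ RT x l i := by
  obtain ⟨m, hm1, hm2, hm3, hm4, hm5⟩ := run_right l hl.nodup n h
  rw [hm2]
  refine ⟨hm1, ?_, ?_⟩
  · by_contra hc
    exact hm5 ((not_rt hx hl).1 hc)
  · intro i h1 h2
    rw [not_rt hx hl]
    exact hm4 i h1 h2

theorem run_lt {x : ℤ → A} (hx : Proper x) {l : List A} (hl : Cox l) {n : ℤ} (h : ¬ RT x l n) :
    run x l n < n ∧ ¬ RT x l (run x l n) ∧ ∀ i, run x l n < i → i < n → RT x l i := by
  have hx' := hx.reflect 0
  have key : ∀ i, RT (fun j => x (0 + 1 - j)) l (0 - i) ↔ ¬ RT x l i := by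
    intro i
    rw [not_rt hx hl]
    unfold RT
    have e1 : (0 : ℤ) + 1 - (0 - i + 1) = i := by ring
    have e2 : (0 : ℤ) + 1 - (0 - i) = i + 1 := by ring
    simp only [e1, e2]
  obtain ⟨h1, h2, h3⟩ := run_rt hx' hl ((key n).2 h)
  rw [run_reflect hx] at h1 h2 h3
  refine ⟨by omega, (key _).1 h2, ?_⟩
  intro i hi1 hi2
  have := h3 (0 - i) (by omega) (by omega)
  rw [key, not_not] at this
  exact this

/-- iterate of a word -/
def pw (l : List A) : ℕ → List A
  | 0 => []
  | k + 1 => l ++ pw l k

theorem run_pw_succ (x : ℤ → A) (l : List A) (k : ℕ) (n : ℤ) :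
    run x (pw l (k + 1)) n = run x (pw l k) (run x l n) := by
  rw [pw, run_append]

theorem run_pw_add (x : ℤ → A) (l : List A) (j k : ℕ) (n : ℤ) :
    run x (pw l (j + k)) n = run x (pw l k) (run x (pw l j) n) := by
  induction j generalizing n with
  | zero => simp [pw]
  | succ j ih =>
    rw [show j + 1 + k = (j + k) + 1 by ring, run_pw_succ, ih, run_pw_succ]

theorem run_pw_rt {x : ℤ → A} (hx : Proper x) {l : List A} (hl : Cox l) (k : ℕ) {n : ℤ}
    (h : RT x l n) : n + k ≤ run x (pw l k) n ∧ RT x l (run x (pw l k) n) := by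
  induction k generalizing n with
  | zero => simp [pw, h]
  | succ k ih =>
    obtain ⟨h1, h2, -⟩ := run_rt hx hl h
    obtain ⟨h3, h4⟩ := ih h2
    rw [run_pw_succ]
    push_cast
    exact ⟨by omega, h4⟩

theorem run_pw_lt {x : ℤ → A} (hx : Proper x) {l : List A} (hl : Cox l) (k : ℕ) {n : ℤ}
    (h : ¬ RT x l n) : run x (pw l k) n ≤ n - k ∧ ¬ RT x l (run x (pw l k) n) := by
  induction k generalizing n with
  | zero => simp [pw, h]
  | succ k ih =>
    obtain ⟨h1, h2, -⟩ := run_lt hx hl h
    obtain ⟨h3, h4⟩ := ih h2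
    rw [run_pw_succ]
    push_cast
    exact ⟨by omega, h4⟩

theorem run_pw_abs {x : ℤ → A} (hx : Proper x) {l : List A} (hl : Cox l) (k : ℕ) (n : ℤ) :
    (k : ℤ) ≤ |run x (pw l k) n - n| := by
  by_cases h : RT x l n
  · have := (run_pw_rt hx hl k h).1
    rw [le_abs]; left; omega
  · have := (run_pw_lt hx hl k h).1
    rw [le_abs]; right; omega

/-- the right moving vertices form one orbit -/
theorem rt_orbit {x : ℤ → A} (hx : Proper x) {l : List A} (hl : Cox l) {n m : ℤ}
    (hn : RT x l n) (hm : RT x l m) (hnm : n < m) :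
    ∃ k : ℕ, 0 < k ∧ run x (pw l k) n = m := by
  have key : ∀ d : ℕ, ∀ n : ℤ, RT x l n → n ≤ m → m - n ≤ d → ∃ k : ℕ, run x (pw l k) n = m := by
    intro d
    induction d with
    | zero =>
      intro n _ h1 h2
      exact ⟨0, by simp [pw]; omega⟩
    | succ d ih =>
      intro n hn h1 h2
      rcases eq_or_lt_of_le h1 with h | h
      · exact ⟨0, by simp [pw]; omega⟩
      · obtain ⟨h3, h4, h5⟩ := run_rt hx hl hn
        have h6 : run x l n ≤ m := by
          by_contra hc
          exact h5 m h (by omega) hm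
        push_cast at h2
        obtain ⟨k, hk⟩ := ih (run x l n) h4 h6 (by omega)
        exact ⟨k + 1, by rw [run_pw_succ, hk]⟩
  obtain ⟨k, hk⟩ := key (m - n).toNat n hn hnm.le (by omega)
  refine ⟨k, ?_, hk⟩
  rcases Nat.eq_zero_or_pos k with h | h
  · subst h; simp [pw] at hk; omega
  · exact h

theorem lt_orbit {x : ℤ → A} (hx : Proper x) {l : List A} (hl : Cox l) {n m : ℤ}
    (hn : ¬ RT x l n) (hm : ¬ RT x l m) (hnm : m < n) :
    ∃ k : ℕ, 0 < k ∧ run x (pw l k) n = m := by
  have key : ∀ d : ℕ, ∀ n : ℤ, ¬ RT x l n → m ≤ n → n - m ≤ d → ∃ k : ℕ, run x (pw l k) n = m := by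
    intro d
    induction d with
    | zero =>
      intro n _ h1 h2
      exact ⟨0, by simp [pw]; omega⟩
    | succ d ih =>
      intro n hn h1 h2
      rcases eq_or_lt_of_le h1 with h | h
      · exact ⟨0, by simp [pw]; omega⟩
      · obtain ⟨h3, h4, h5⟩ := run_lt hx hl hn
        have h6 : m ≤ run x l n := by
          by_contra hc
          exact hm (h5 m (by omega) h)
        push_cast at h2
        obtain ⟨k, hk⟩ := ih (run x l n) h4 h6 (by omega)
        exact ⟨k + 1, by rw [run_pw_succ, hk]⟩
  obtain ⟨k, hk⟩ := key (n - m).toNat n hn hnm.le (by omega)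
  refine ⟨k, ?_, hk⟩
  rcases Nat.eq_zero_or_pos k with h | h
  · subst h; simp [pw] at hk; omega
  · exact h

/-- two positions with the same direction for every Coxeter word carry the same letters -/
theorem letters_of_rt [Fintype A] {x : ℤ → A} (hx : Proper x) {m n : ℤ}
    (h : ∀ l, Cox l → (RT x l m ↔ RT x l n)) : x m = x n ∧ x (m + 1) = x (n + 1) := by
  -- letters a = x m, b = x (m+1), a' = x n, b' = x (n+1)
  by_contra hne
  have hab := hx m
  have hab' := hx n
  -- we want l with b before a and a' before b'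
  have main : ∃ l, Cox l ∧ Bef l (x (m + 1)) (x m) ∧ Bef l (x n) (x (n + 1)) := by
    by_cases h1 : x (m + 1) = x (n + 1)
    · -- then a ≠ a'
      have h2 : x m ≠ x n := fun h => hne ⟨h, h1⟩
      let rest := (Finset.univ.toList : List A).filter (fun c => c ≠ x n ∧ c ≠ x (m + 1))
      have hr : ∀ c, c ∈ rest ↔ c ≠ x n ∧ c ≠ x (m + 1) := by
        intro c; simp [rest]
      refine ⟨x n :: x (m + 1) :: rest, ⟨?_, ?_⟩, ?_, ?_⟩
      · rw [List.nodup_cons, List.nodup_cons]
        refine ⟨?_, ?_, ?_⟩
        · rw [List.mem_cons, not_or, hr]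
          refine ⟨by rw [h1]; exact hab', by simp⟩
        · rw [hr]; simp
        · exact (Finset.nodup_toList _).filter _
      · intro c
        rw [List.mem_cons, List.mem_cons, hr]
        by_cases h3 : c = x n
        · simp [h3]
        · by_cases h4 : c = x (m + 1)
          · simp [h4]
          · simp [h3, h4]
      · rw [bef_cons, bef_cons]
        right; left
        refine ⟨rfl, (hr _).2 ⟨h2, hab⟩⟩
      · rw [bef_cons]
        left
        refine ⟨rfl, ?_⟩
        rw [h1]; simp
    · by_cases h2 : x n = x (m + 1)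
      · let rest := (Finset.univ.toList : List A).filter (fun c => c ≠ x n)
        have hr : ∀ c, c ∈ rest ↔ c ≠ x n := by
          intro c; simp [rest]
        refine ⟨x n :: rest, ⟨?_, ?_⟩, ?_, ?_⟩
        · rw [List.nodup_cons]
          refine ⟨?_, ?_⟩
          · rw [hr]; simp
          · exact (Finset.nodup_toList _).filter _
        · intro c
          rw [List.mem_cons, hr]
          by_cases h3 : c = x n
          · simp [h3]
          · simp [h3]
        · rw [bef_cons]
          left
          exact ⟨h2.symm, (hr _).2 (by rw [h2]; exact hab)⟩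
        · rw [bef_cons]
          left
          exact ⟨rfl, (hr _).2 hab'.symm⟩
      · let rest := (Finset.univ.toList : List A).filter (fun c => c ≠ x n ∧ c ≠ x (m + 1))
        have hr : ∀ c, c ∈ rest ↔ c ≠ x n ∧ c ≠ x (m + 1) := by
          intro c; simp [rest]
        refine ⟨x (m + 1) :: x n :: rest, ⟨?_, ?_⟩, ?_, ?_⟩
        · rw [List.nodup_cons, List.nodup_cons]
          refine ⟨?_, ?_, ?_⟩
          · rw [List.mem_cons, not_or, hr]
            refine ⟨fun h => h2 h.symm, by simp⟩
          · rw [hr]; simp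
          · exact (Finset.nodup_toList _).filter _
        · intro c
          rw [List.mem_cons, List.mem_cons, hr]
          by_cases h3 : c = x n
          · simp [h3]
          · by_cases h4 : c = x (m + 1)
            · simp [h4]
            · simp [h3, h4]
        · rw [bef_cons]
          left
          refine ⟨rfl, ?_⟩
          rw [List.mem_cons, hr]
          by_cases h3 : x m = x n
          · left; exact h3
          · right; exact ⟨h3, hab⟩
        · rw [bef_cons, bef_cons]
          right; left
          refine ⟨rfl, (hr _).2 ⟨hab'.symm, fun h => h1 h.symm⟩⟩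
  obtain ⟨l, hl, h1, h2⟩ := main
  have h3 : RT x l m := h1
  have h4 : ¬ RT x l n := (not_rt hx hl).2 h2
  exact h4 ((h l hl).1 h3)

end Pool.Agent.Lib_helper71.AF
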