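import Pool.Agent.Lib_helper71.AF.Run
import Pool.Agent.Lib_helper71.AF.Defs

/-! Subshifts with finitely many forbidden words: gluing, cyclic windows. -/

namespace Pool.Agent.Lib_helper71.AF

set_option linter.unusedSectionVars false

variable {A : Type*}

/-- `σ^s` -/
def sh (s : ℤ) (x : ℤ → A) : ℤ → A := fun i => x (i + s)

@[simp] theorem sh_apply (s : ℤ) (x : ℤ → A) (i : ℤ) : sh s x i = x (i + s) := rfl

theorem sh_sh (s t : ℤ) (x : ℤ → A) : sh s (sh t x) = sh (s + t) x := by
  funext i; simp only [sh_apply]; congr 1; ring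

theorem sh_zero (x : ℤ → A) : sh 0 x = x := by funext i; simp

theorem word_length (x : ℤ → A) (i : ℤ) (k : ℕ) : (word x i k).length = k := by simp [word]

theorem word_congr {x y : ℤ → A} {i j : ℤ} {K : ℕ}
    (h : ∀ k : ℕ, k < K → x (i + k) = y (j + k)) : word x i K = word y j K := by
  unfold word
  apply List.map_congr_left
  intro a ha
  exact h a (List.mem_range.1 ha)

theorem word_two (x : ℤ → A) (i : ℤ) : word x i 2 = [x i, x (i + 1)] := by
  simp [word, List.range_succ]

variable {F : Set (List A)}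

theorem proper_of_mem (haa : ∀ a, [a, a] ∈ F) {x : ℤ → A} (hx : x ∈ SF F) : Proper x := by
  intro i h
  apply hx i 2
  rw [word_two, ← h]
  exact haa _

theorem sh_mem (s : ℤ) {x : ℤ → A} (hx : x ∈ SF F) : sh s x ∈ SF F := by
  intro i k h
  apply hx (i + s) k
  have : word (sh s x) i k = word x (i + s) k := by
    apply word_congr
    intro j _
    simp only [sh_apply]
    congr 1; ring
  rwa [this] at h

variable {R : ℕ}

/-- `S_F` is determined by its words of length `R - 1` -/
def Loc (F : Set (List A)) (R : ℕ) : Prop := ∀ z : ℤ → A,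
    (∀ i : ℤ, ∃ y ∈ SF F, ∃ j : ℤ, ∀ k : ℕ, k + 1 < R → z (i + k) = y (j + k)) → z ∈ SF F

theorem mem_of_local (hR : Loc F R) {z : ℤ → A}
    (h : ∀ i : ℤ, ∃ y ∈ SF F, ∃ j : ℤ, ∀ k : ℕ, k + 1 < R → z (i + k) = y (j + k)) :
    z ∈ SF F := hR z h

theorem loc_of_length (hR : ∀ w ∈ F, w.length < R) : Loc F R := by
  intro z h i K hK
  have h1 := hR _ hK
  rw [word_length] at h1
  obtain ⟨y, hy, j, hj⟩ := h i
  apply hy j K
  have : word z i K = word y j K := by
    apply word_congr
    intro k hk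
    exact hj k (by omega)
  rwa [this] at hK

/-- glue `x` before `q` with `y` from `r` on -/
def glue (x y : ℤ → A) (q r : ℤ) : ℤ → A := fun i => if i < q then x i else y (i - q + r)

theorem glue_left {x y : ℤ → A} {q r i : ℤ} (h : i < q) : glue x y q r i = x i := by
  simp [glue, h]

theorem glue_right {x y : ℤ → A} {q r i : ℤ} (h : q ≤ i) : glue x y q r i = y (i - q + r) := by
  simp [glue, not_lt.2 h]

/-- overlap: the glued point agrees with `x` also on the overlap -/
theorem glue_overlap {x y : ℤ → A} {q r : ℤ} {L : ℕ}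
    (h : ∀ k : ℕ, k + 1 < L → x (q + k) = y (r + k)) {i : ℤ} (hi : i + 1 < q + L) :
    glue x y q r i = x i := by
  by_cases h1 : i < q
  · exact glue_left h1
  · rw [glue_right (not_lt.1 h1)]
    have h2 := h (i - q).toNat (by omega)
    have e : ((i - q).toNat : ℤ) = i - q := by omega
    rw [e] at h2
    have e1 : q + (i - q) = i := by ring
    have e2 : r + (i - q) = i - q + r := by ring
    rw [e1, e2] at h2
    exact h2.symm

theorem glue_mem (hR : Loc F R) {x y : ℤ → A} (hx : x ∈ SF F) (hy : y ∈ SF F)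
    {q r : ℤ} (h : ∀ k : ℕ, k + 1 < R → x (q + k) = y (r + k)) : glue x y q r ∈ SF F := by
  apply mem_of_local hR
  intro i
  by_cases h1 : i < q
  · refine ⟨x, hx, i, fun k hk => ?_⟩
    exact glue_overlap h (by omega)
  · refine ⟨y, hy, i - q + r, fun k hk => ?_⟩
    rw [glue_right (by omega)]
    congr 1; ring

theorem Per.of_int {x : ℤ → A} {p : ℤ} (hp : p ≠ 0) (h : ∀ i, x (i + p) = x i) : Per x := by
  rcases lt_or_gt_of_ne hp with h1 | h1
  · refine ⟨(-p).toNat, by omega, fun i => ?_⟩
    have e : (((-p).toNat : ℕ) : ℤ) = -p := by omega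
    rw [e]
    have := h (i + -p)
    rw [← this]
    congr 1; ring
  · refine ⟨p.toNat, by omega, fun i => ?_⟩
    have e : ((p.toNat : ℕ) : ℤ) = p := by omega
    rw [e]
    exact h i

theorem per_mul {x : ℤ → A} {p : ℤ} (h : ∀ i, x (i + p) = x i) (k : ℤ) (i : ℤ) :
    x (i + p * k) = x i := by
  induction k using Int.induction_on with
  | zero => simp
  | succ k ih =>
    rw [← ih, ← h (i + p * k)]
    congr 1; ring
  | pred k ih =>
    rw [← ih, ← h (i + p * (-k - 1))]
    congr 1; ring

/-- if an `(R-1)`-window is repeated then the part in between is in a periodic point -/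
theorem per_of_repeat (hR : Loc F R) {z : ℤ → A} (hz : z ∈ SF F) {a b : ℤ}
    (hab : a < b) (h : ∀ k : ℕ, k + 1 < R → z (a + k) = z (b + k)) :
    ∃ u ∈ SF F, (∀ i, u (i + (b - a)) = u i) ∧ ∀ i, a ≤ i → i + 1 < b + R → u i = z i := by
  let P := b - a
  have hP : 0 < P := by simp only [P]; omega
  let u : ℤ → A := fun i => z (a + (i - a) % P)
  have hper : ∀ i, u (i + P) = u i := by
    intro i
    simp only [u]
    congr 2
    rw [show i + P - a = (i - a) + P by ring, Int.add_emod_right]
  have hu : ∀ j : ℕ, (j : ℤ) + 1 < P + R → u (a + j) = z (a + j) := by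
    intro j
    induction j using Nat.strong_induction_on with
    | _ j ih =>
      intro hj
      by_cases h1 : (j : ℤ) < P
      · simp only [u]
        rw [show a + (j : ℤ) - a = j by ring, Int.emod_eq_of_lt (by omega) h1]
      · obtain ⟨m, hm⟩ : ∃ m : ℕ, (m : ℤ) = j - P := ⟨(j - P).toNat, by omega⟩
        have h2 := ih m (by omega) (by omega)
        have h3 := h m (by omega)
        have e1 : a + (j : ℤ) = (a + m) + P := by rw [hm]; ring
        rw [e1, hper, h2, h3]
        congr 1
        simp only [P]; ring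
  refine ⟨u, ?_, hper, ?_⟩
  · apply mem_of_local hR
    intro i
    refine ⟨z, hz, a + (i - a) % P, fun k hk => ?_⟩
    have h1 : 0 ≤ (i - a) % P := Int.emod_nonneg _ hP.ne'
    have h2 : (i - a) % P < P := Int.emod_lt_of_pos _ hP
    obtain ⟨m, hm⟩ : ∃ m : ℕ, (m : ℤ) = (i - a) % P := ⟨((i - a) % P).toNat, by omega⟩
    have h3 := hu (m + k) (by push_cast; omega)
    have e1 : a + (i - a) % P + k = a + ((m + k : ℕ) : ℤ) := by push_cast; omega
    rw [e1, ← h3]
    have h4 := per_mul hper (-((i - a) / P)) (i + k)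
    rw [← h4]
    congr 1
    have := Int.emod_add_mul_ediv (i - a) P
    push_cast
    have e2 : P * -((i - a) / P) = -(P * ((i - a) / P)) := by ring
    rw [e2]
    omega
  · intro i h1 h2
    obtain ⟨m, hm⟩ : ∃ m : ℕ, (m : ℤ) = i - a := ⟨(i - a).toNat, by omega⟩
    have h3 := hu m (by simp only [P]; omega)
    rw [show a + (m : ℤ) = i by omega] at h3
    exact h3

/-- the `R`-window of `x` at `i` occurs in a periodic point -/
def Cyc (F : Set (List A)) (R : ℕ) (x : ℤ → A) (i : ℤ) : Prop :=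
  ∃ z ∈ SF F, Per z ∧ ∃ j : ℤ, ∀ k : ℕ, k < R → z (j + k) = x (i + k)

theorem Cyc.congr {x y : ℤ → A} {i j : ℤ} (h : ∀ k : ℕ, k < R → x (i + k) = y (j + k))
    (hc : Cyc F R x i) : Cyc F R y j := by
  obtain ⟨z, hz, hp, m, hm⟩ := hc
  exact ⟨z, hz, hp, m, fun k hk => by rw [hm k hk, h k hk]⟩

theorem cyc_of_repeat (hR : Loc F R) {z : ℤ → A} (hz : z ∈ SF F) {a b : ℤ}
    (hab : a < b) (h : ∀ k : ℕ, k < R → z (a + k) = z (b + k)) : Cyc F R z a := by
  obtain ⟨u, hu, hp, hag⟩ := per_of_repeat hR hz hab (fun k hk => h k (by omega))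
  refine ⟨u, hu, Per.of_int (p := b - a) (by omega) hp, a, fun k hk => ?_⟩
  exact hag _ (by omega) (by omega)

/-- positions of non-cyclic windows -/
def NC (F : Set (List A)) (R : ℕ) (x : ℤ → A) : Set ℤ := {i | ¬ Cyc F R x i}

theorem nc_injOn (hR : Loc F R) {x : ℤ → A} (hx : x ∈ SF F) :
    Set.InjOn (fun i : ℤ => (fun k : Fin R => x (i + (k : ℕ)))) (NC F R x) := by
  intro i hi j hj hij
  simp only [NC, Set.mem_ofPred_eq] at hi hj
  have h : ∀ k : ℕ, k < R → x (i + k) = x (j + k) := fun k hk => congrFun hij ⟨k, hk⟩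
  rcases lt_trichotomy i j with h1 | h1 | h1
  · exact absurd (cyc_of_repeat hR hx h1 h) hi
  · exact h1
  · exact absurd (cyc_of_repeat hR hx h1 (fun k hk => (h k hk).symm)) hj

theorem nc_finite [Finite A] (hR : Loc F R) {x : ℤ → A} (hx : x ∈ SF F) :
    (NC F R x).Finite :=
  Set.Finite.of_injOn (fun _ _ => Set.mem_univ _) (nc_injOn hR hx) Set.finite_univ

theorem nc_card [Finite A] (hR : Loc F R) {x : ℤ → A} (hx : x ∈ SF F) :
    (NC F R x).ncard ≤ Nat.card (Fin R → A) := by
  have := Set.ncard_le_ncard_of_injOn (fun i : ℤ => (fun k : Fin R => x (i + (k : ℕ))))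
    (fun _ _ => Set.mem_univ _) (nc_injOn hR hx) Set.finite_univ
  rwa [Set.ncard_univ] at this

theorem nc_sh (s : ℤ) (x : ℤ → A) (i : ℤ) : i ∈ NC F R (sh s x) ↔ i + s ∈ NC F R x := by
  simp only [NC, Set.mem_ofPred_eq]
  rw [not_iff_not]
  constructor
  · apply Cyc.congr
    intro k _
    simp only [sh_apply]
    congr 1; ring
  · apply Cyc.congr
    intro k _
    simp only [sh_apply]
    congr 1; ring

theorem nc_sh_card (s : ℤ) (x : ℤ → A) : (NC F R (sh s x)).ncard = (NC F R x).ncard := by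
  have : NC F R x = (fun i => i + s) '' NC F R (sh s x) := by
    ext i
    simp only [Set.mem_image]
    constructor
    · intro h
      exact ⟨i - s, by rw [nc_sh]; simpa using h, by ring⟩
    · rintro ⟨j, hj, rfl⟩
      exact (nc_sh s x j).1 hj
  rw [this, Set.ncard_image_of_injective _ (add_left_injective s)]


theorem cyc_of_per {z : ℤ → A} (hz : z ∈ SF F) (hp : Per z) (i : ℤ) : Cyc F R z i :=
  ⟨z, hz, hp, i, fun _ _ => rfl⟩

/-- replace the right tail by a periodic one -/
theorem cut_right (hR : Loc F R) {x : ℤ → A} (hx : x ∈ SF F) {q : ℤ}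
    (hq : Cyc F R x q) : ∃ x' ∈ SF F, (∀ i, i < q + R → x' i = x i) ∧
      ∀ i, i ∈ NC F R x' → i ∈ NC F R x ∧ i < q := by
  obtain ⟨z, hz, hp, j, hj⟩ := hq
  refine ⟨glue x z q j, glue_mem hR hx hz (fun k hk => (hj k (by omega)).symm), ?_, ?_⟩
  · intro i hi
    by_cases h1 : i < q
    · exact glue_left h1
    · rw [glue_right (not_lt.1 h1)]
      obtain ⟨m, hm⟩ : ∃ m : ℕ, (m : ℤ) = i - q := ⟨(i - q).toNat, by omega⟩
      have := hj m (by omega)
      rw [hm] at this
      rw [show i - q + j = j + (i - q) by ring, this]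
      congr 1; ring
  · intro i hi
    by_cases h1 : i < q
    · refine ⟨?_, h1⟩
      intro hc
      apply hi
      apply hc.congr
      intro k hk
      by_cases h2 : i + k < q
      · rw [glue_left h2]
      · rw [glue_right (not_lt.1 h2)]
        obtain ⟨m, hm⟩ : ∃ m : ℕ, (m : ℤ) = i + k - q := ⟨(i + k - q).toNat, by omega⟩
        have := hj m (by omega)
        rw [hm] at this
        rw [show i + (k : ℤ) - q + j = j + (i + k - q) by ring, this]
        congr 1; ring
    · exfalso
      apply hi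
      apply (cyc_of_per (R := R) hz hp (i - q + j)).congr
      intro k hk
      rw [glue_right (by omega)]
      congr 1; ring

/-- replace the left tail by a periodic one -/
theorem cut_left (hR : Loc F R) {x : ℤ → A} (hx : x ∈ SF F) {q : ℤ}
    (hq : Cyc F R x q) : ∃ x' ∈ SF F, (∀ i, q ≤ i → x' i = x i) ∧
      ∀ i, i ∈ NC F R x' → i ∈ NC F R x ∧ q < i := by
  obtain ⟨z, hz, hp, j, hj⟩ := hq
  have hz' : sh (j - q) z ∈ SF F := sh_mem _ hz
  have hj' : ∀ k : ℕ, k < R → sh (j - q) z (q + k) = x (q + k) := by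
    intro k hk
    rw [← hj k hk, sh_apply]
    congr 1; ring
  have hp' : Per (sh (j - q) z) := by
    obtain ⟨p, hp0, hp⟩ := hp
    refine ⟨p, hp0, fun i => ?_⟩
    simp only [sh_apply]
    rw [← hp (i + (j - q))]
    congr 1; ring
  refine ⟨glue (sh (j - q) z) x q q, glue_mem hR hz' hx (fun k hk => hj' k (by omega)), ?_, ?_⟩
  · intro i hi
    rw [glue_right hi]
    congr 1; ring
  · intro i hi
    by_cases h1 : q < i
    · refine ⟨?_, h1⟩
      intro hc
      apply hi
      apply hc.congr
      intro k hk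
      rw [glue_right (by omega)]
      congr 1; ring
    · exfalso
      apply hi
      apply (cyc_of_per (R := R) hz' hp' i).congr
      intro k hk
      by_cases h2 : i + k < q
      · rw [glue_left h2]
      · rw [glue_right (not_lt.1 h2)]
        obtain ⟨m, hm⟩ : ∃ m : ℕ, (m : ℤ) = i + k - q := ⟨(i + k - q).toNat, by omega⟩
        have := hj' m (by omega)
        rw [hm] at this
        rw [show q + (i + k - q) = i + k by ring] at this
        rw [this]
        congr 1; ring

/-- cyclic windows allow to return -/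
theorem reach (hR : Loc F R) {x : ℤ → A} (hx : x ∈ SF F)
    (hc : ∀ i, Cyc F R x i) (i : ℤ) (n : ℕ) :
    ∃ v ∈ SF F, ∃ a b : ℤ, a ≤ b ∧ (∀ k : ℕ, k + 1 < R → v (a + k) = x (i + n + k)) ∧
      ∀ k : ℕ, k + 1 < R → v (b + k) = x (i + k) := by
  induction n with
  | zero => exact ⟨x, hx, i, i, le_rfl, fun k _ => by simp, fun k _ => rfl⟩
  | succ n ih =>
    obtain ⟨v, hv, a, b, hab, ha, hb⟩ := ih
    obtain ⟨z, hz, ⟨p, hp0, hp⟩, j, hj⟩ := hc (i + n)
    have hov : ∀ k : ℕ, k + 1 < R → z (j + p + k) = v (a + k) := by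
      intro k hk
      rw [ha k hk, ← hj k (by omega), ← hp (j + k)]
      congr 1; ring
    refine ⟨glue z v (j + p) a, glue_mem hR hz hv hov, j + 1, j + p + (b - a), by omega, ?_, ?_⟩
    · intro k hk
      rw [glue_overlap hov (by omega)]
      have := hj (k + 1) hk
      push_cast at this ⊢
      rw [show j + 1 + (k : ℤ) = j + (k + 1) by ring, this]
      congr 1; ring
    · intro k hk
      rw [glue_right (by omega), ← hb k hk]
      congr 1; ring

/-- points all of whose windows are cyclic are limits of periodic points -/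
theorem approx_per (hR : Loc F R) {x : ℤ → A} (hx : x ∈ SF F)
    (hc : ∀ i, Cyc F R x i) (N : ℕ) :
    ∃ u ∈ SF F, Per u ∧ ∀ i : ℤ, -N ≤ i → i ≤ N → u i = x i := by
  obtain ⟨v, hv, a, b, hab, ha, hb⟩ := reach hR hx hc (-N) (2 * N + 2)
  have hM : (-(N : ℤ) + ((2 * N + 2 : ℕ) : ℤ)) = N + 2 := by push_cast; ring
  rw [hM] at ha
  have hov : ∀ k : ℕ, k + 1 < R → x (N + 2 + k) = v (a + k) := fun k hk => (ha k hk).symm
  have hz := glue_mem hR hx hv hov
  obtain ⟨u, hu, hp, hag⟩ := per_of_repeat hR hz (a := -N) (b := N + 2 + (b - a)) (by omega) (by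
    intro k hk
    rw [glue_overlap hov (by omega), glue_right (by omega), ← hb k hk]
    congr 1; ring)
  refine ⟨u, hu, Per.of_int (p := N + 2 + (b - a) - -N) (by omega) hp, ?_⟩
  intro i h1 h2
  rw [hag i h1 (by omega), glue_left (by omega)]

end Pool.Agent.Lib_helper71.AF
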