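import Pool.Agent.Lib_helper71.AF.Act

/-! Step A: if the periodic points do not separate, then `Nj 0` is nontrivial. -/

namespace Pool.Agent.Lib_helper71.AF

set_option linter.unusedSectionVars false

variable {A : Type*} {F : Set (List A)} [DecidableEq A]

/-- `r` permuting the finite set `O` with at most `N` elements: `r ^ N!` fixes it pointwise -/
theorem pow_factorial_smul {Γ X : Type*} [Group Γ] [MulAction Γ X] [DecidableEq X] (r : Γ)
    (O : Finset X) (hO : ∀ y ∈ O, r • y ∈ O) {N : ℕ} (hN : O.card ≤ N) {y : X} (hy : y ∈ O) :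
    r ^ (N.factorial) • y = y := by
  have h1 : ∀ a : ℕ, r ^ a • y ∈ O := by
    intro a
    induction a with
    | zero => simpa using hy
    | succ a ih => rw [pow_succ', mul_smul]; exact hO _ ih
  obtain ⟨a, ha, b, hb, hab, he⟩ := Finset.exists_ne_map_eq_of_card_lt_of_maps_to
    (s := Finset.range (N + 1)) (t := O) (f := fun a => r ^ a • y)
    (by rw [Finset.card_range]; omega) (fun a _ => h1 a)
  have key : ∀ a b : ℕ, a < b → b ≤ N → r ^ a • y = r ^ b • y → r ^ (N.factorial) • y = y := by
    intro a b hab hb he
    have h2 : r ^ (b - a) • y = y := by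
      have : r ^ b = r ^ a * r ^ (b - a) := by rw [← pow_add]; congr 1; omega
      rw [this, mul_smul] at he
      exact (smul_left_cancel _ he).symm
    obtain ⟨q, hq⟩ := Nat.dvd_factorial (show 0 < b - a by omega) (show b - a ≤ N by omega)
    rw [hq, pow_mul]
    have h3 : r ^ (b - a) ∈ MulAction.stabilizer Γ y := h2
    exact (MulAction.stabilizer Γ y).pow_mem h3 q
  simp only [Finset.mem_range] at ha hb
  rcases lt_or_gt_of_ne hab with h | h
  · exact key a b h (by omega) he
  · exact key b a h (by omega) he.symm

namespace Dat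

variable {Γ : Type*} [Group Γ] [MulAction Γ (SF F)] (D : Dat F Γ)
include D
variable {R : ℕ} (hR : Loc F R)

theorem smul_period {l : List A} {x : SF F} {n : ℤ} (h : D.wd l • shS n x = shS n x) (i : ℤ) :
    x.1 (i + (run x.1 l n - n)) = x.1 i := by
  rw [D.wd_smul] at h
  have := congrFun (congrArg Subtype.val h) (i - n)
  simp only [shS_val, sh_apply] at this
  rw [show i - n + n = i by ring] at this
  exact (congrArg x.1 (by ring)).trans this

include hR in
theorem triv_S0 {l : List A} (h : ∀ z : SF F, Per z.1 → D.wd l • z = z) (x : SF F)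
    (hx : ∀ i, Cyc F R x.1 i) : D.wd l • x = x := by
  rw [D.wd_smul0]
  apply Subtype.ext
  funext i
  simp only [shS_val, sh_apply]
  have hb := run_bounds x.1 l 0
  obtain ⟨u, hu, hp, hux⟩ := approx_per hR x.2 hx (l.length + i.natAbs + l.length)
  push_cast at hux
  have hi1 := neg_abs_le i
  have hi2 := le_abs_self i
  have h1 : run u l 0 = run x.1 l 0 := by
    apply run_congr
    intro i h1 h2
    exact hux i (by omega) (by omega)
  have h2 := h ⟨u, hu⟩ hp
  rw [D.wd_smul0] at h2
  have h3 := congrFun (congrArg Subtype.val h2) i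
  simp only [shS_val, sh_apply] at h3
  rw [h1] at h3
  rw [← hux i (by omega) (by omega), ← hux (i + run x.1 l 0) (by omega) (by omega)]
  exact h3

/-- all positions of a point without non-cyclic windows -/
theorem cyc_of_card [Finite A] {x : SF F} (hR : Loc F R)
    (h : (NC F R x.1).ncard ≤ 0) (i : ℤ) : Cyc F R x.1 i := by
  have h1 : NC F R x.1 = ∅ := by
    rw [← Set.ncard_eq_zero (nc_finite hR x.2)]
    omega
  by_contra hc
  have : i ∈ NC F R x.1 := hc
  rw [h1] at this
  exact this

theorem comm_mem_N0 [Finite A] (hR : Loc F R) {l c : List A}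
    (hl : ∀ x : SF F, (NC F R x.1).ncard ≤ 0 → D.wd l • x = x) :
    D.wd c ^ (l.length.factorial) * D.wd l * (D.wd c ^ (l.length.factorial))⁻¹ * (D.wd l)⁻¹
      ∈ D.Nj R 0 := by
  classical
  set M := l.length.factorial with hM
  refine ⟨l.reverse ++ ((pw c M).reverse ++ (l ++ pw c M)), ?_, ?_⟩
  · rw [D.wd_append, D.wd_append, D.wd_append, D.wd_reverse, D.wd_reverse, D.wd_pw]
  · intro x hx hcard n
    have hP := D.proper ⟨x, hx⟩
    have hper : ∀ n i, x (i + (run x l n - n)) = x i := by
      intro n i
      have h1 : D.wd l • shS n (⟨x, hx⟩ : SF F) = shS n ⟨x, hx⟩ := by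
        apply hl
        rw [shS_val, nc_sh_card]
        exact hcard
      exact D.smul_period h1 i
    -- `run` commutes with translations by periods
    have htr : ∀ (w : List A) (s : ℤ), (∀ i, x (i + s) = x i) → ∀ n,
        run x w (n + s) = run x w n + s := by
      intro w s hs n
      have h1 : (fun i => x (i + s)) = x := funext hs
      have h2 := run_shift x s w n
      rw [h1] at h2
      exact h2.symm
    have hcomm : ∀ n, run x (pw c M) (run x l n) = run x l (run x (pw c M) n) := by
      by_cases hall : ∀ n, run x l n = n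
      · intro n; rw [hall, hall]
      · push Not at hall
        obtain ⟨n0, hn0⟩ := hall
        set s := run x l n0 - n0 with hs
        have hs0 : s ≠ 0 := by omega
        have hsl := run_bounds x l n0
        have hsp := hper n0
        rw [← hs] at hsp
        -- finite set of points on the line
        let O : Finset (SF F) := (Finset.range s.natAbs).image (fun i : ℕ => shS (i : ℤ) ⟨x, hx⟩)
        have hO : ∀ n : ℤ, shS n (⟨x, hx⟩ : SF F) ∈ O := by
          intro n
          rw [Finset.mem_image]
          refine ⟨(n % (s.natAbs : ℤ)).toNat, ?_, ?_⟩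
          · rw [Finset.mem_range]
            have h1 : 0 ≤ n % (s.natAbs : ℤ) := Int.emod_nonneg _ (by omega)
            have h2 : n % (s.natAbs : ℤ) < s.natAbs := Int.emod_lt_of_pos _ (by omega)
            omega
          · apply Subtype.ext
            funext i
            have h1 : 0 ≤ n % (s.natAbs : ℤ) := Int.emod_nonneg _ (by omega)
            have h2 := Int.emod_add_mul_ediv n (s.natAbs : ℤ)
            simp only [shS_val, sh_apply]
            rw [Int.toNat_of_nonneg h1]
            have h3 : ∀ i, x (i + (s.natAbs : ℤ)) = x i := by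
              rcases Int.natAbs_eq s with h | h
              · rw [← h]; exact hsp
              · intro i
                have := hsp (i + s.natAbs)
                rw [← this]
                congr 1; omega
            rw [← per_mul h3 (n / (s.natAbs : ℤ)) (i + n % (s.natAbs : ℤ))]
            congr 1
            omega
        have hOc : O.card ≤ l.length := by
          refine Finset.card_image_le.trans ?_
          rw [Finset.card_range]
          omega
        have hfix : ∀ n, D.wd (pw c M) • shS n (⟨x, hx⟩ : SF F) = shS n ⟨x, hx⟩ := by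
          intro n
          rw [D.wd_pw]
          apply pow_factorial_smul (D.wd c) O ?_ hOc (hO n)
          intro y hy
          rw [Finset.mem_image] at hy
          obtain ⟨i, -, rfl⟩ := hy
          rw [D.wd_smul]
          exact hO _
        intro n
        have e1 := htr (pw c M) (run x l n - n) (hper n) n
        have e2 := htr l (run x (pw c M) n - n) (fun i => D.smul_period (hfix n) i) n
        rw [show n + (run x l n - n) = run x l n by ring] at e1
        rw [show n + (run x (pw c M) n - n) = run x (pw c M) n by ring] at e2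
        rw [e1, e2]
        ring
    rw [run_append, run_append, run_append]
    have h1 := hcomm (run x (pw c M).reverse (run x l.reverse n))
    rw [run_reverse' hP] at h1
    rw [h1, run_reverse' hP]

/-- same direction for every Coxeter word forces the same letters everywhere -/
theorem stepA [Fintype A] (hR : Loc F R) {κ : Γ}
    (hκ : ∀ x : SF F, (NC F R x.1).ncard ≤ 0 → κ • x = x) (h1 : κ ≠ 1) : D.Nj R 0 ≠ ⊥ := by
  intro hbot
  -- a point moved
  obtain ⟨x, hx⟩ : ∃ x : SF F, κ • x ≠ x := by
    by_contra hcon
    push Not at hcon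
    exact h1 (D.faithful κ hcon)
  obtain ⟨s, hs⟩ := D.smul_eq κ x
  have hxp : ¬ Per x.1 := by
    intro hp
    apply hx
    apply hκ
    have : NC F R x.1 = ∅ := by
      rw [Set.eq_empty_iff_forall_notMem]
      intro i hi
      exact hi (cyc_of_per x.2 hp i)
    rw [this]; simp
  have hs0 : s ≠ 0 := by
    rintro rfl
    rw [shS_zero] at hs
    exact hx hs
  have hP := D.proper x
  let Rel : ℤ → ℤ → Prop := fun m n => ∃ κ : Γ, (∀ x : SF F, (NC F R x.1).ncard ≤ 0 → κ • x = x) ∧
    κ • shS m x = shS n x
  have inv : ∀ (w : List A) (m n : ℤ), Rel m n → Rel (run x.1 w m) (run x.1 w n) := by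
    rintro w m n ⟨κ, h1, h2⟩
    refine ⟨D.wd w * κ * (D.wd w)⁻¹, ?_, ?_⟩
    · intro y hy
      rw [mul_smul, mul_smul]
      rw [h1, smul_inv_smul]
      rw [← D.wd_reverse, D.wd_smul0, shS_val, nc_sh_card]
      exact hy
    · rw [← D.wd_smul, mul_smul, inv_smul_smul, mul_smul, h2, D.wd_smul]
  have dir1 : ∀ m n, Rel m n → ∀ c, Cox c → RT x.1 c m → RT x.1 c n := by
    rintro m n ⟨κ, hk1, hk2⟩ c hc hm
    obtain ⟨l, rfl⟩ := D.exists_wd κ
    by_contra hn
    have hcom := D.comm_mem_N0 hR (c := c) hk1
    rw [hbot, Subgroup.mem_bot, mul_inv_eq_one] at hcom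
    set M := l.length.factorial with hM
    have hM0 : 0 < M := Nat.factorial_pos _
    have hcom2 : D.wd c ^ M * D.wd l = D.wd l * D.wd c ^ M := mul_inv_eq_iff_eq_mul.1 hcom
    have hcomk : ∀ k : ℕ, (D.wd c ^ M) ^ k * D.wd l = D.wd l * (D.wd c ^ M) ^ k := by
      intro k
      exact ((show Commute (D.wd c ^ M) (D.wd l) from hcom2).pow_left k)
    obtain ⟨k, hk⟩ : ∃ k : ℕ, (l.length : ℤ) + |n - m| < k :=
      ⟨((l.length : ℤ) + |n - m| + 1).toNat, by
        have := abs_nonneg (n - m)
        omega⟩
    have h3 : D.wd l • shS (run x.1 (pw c (M * k)) m) x = shS (run x.1 (pw c (M * k)) n) x := by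
      rw [← D.wd_smul, ← D.wd_smul, D.wd_pw, pow_mul, ← hk2, ← mul_smul, ← mul_smul, hcomk]
    have h4 := D.run_of_smul hxp h3
    have h5 := (run_pw_rt hP hc (M * k) hm).1
    have h6 := (run_pw_lt hP hc (M * k) hn).1
    have h7 := run_bounds x.1 l (run x.1 (pw c (M * k)) m)
    have h8 : (k : ℤ) ≤ ((M * k : ℕ) : ℤ) := by
      exact_mod_cast Nat.le_mul_of_pos_left k hM0
    have h9 := le_abs_self (n - m)
    omega
  have symm : ∀ m n, Rel m n → Rel n m := by
    rintro m n ⟨κ, hk1, hk2⟩
    refine ⟨κ⁻¹, fun y hy => ?_, ?_⟩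
    · rw [inv_smul_eq_iff, hk1 y hy]
    · rw [← hk2, inv_smul_smul]
  have letters : ∀ m n, Rel m n → x.1 m = x.1 n ∧ x.1 (m + 1) = x.1 (n + 1) := by
    intro m n h
    apply letters_of_rt hP
    intro c hc
    exact ⟨dir1 m n h c hc, dir1 n m (symm m n h) c hc⟩
  have up : ∀ m n, Rel m n → Rel (m + 1) (n + 1) := by
    intro m n h
    have h2 := inv [x.1 (m + 1)] m n h
    simp only [run_cons, run_nil] at h2
    rw [mv_right rfl, mv_right (letters m n h).2.symm] at h2
    exact h2
  have down : ∀ m n, Rel m n → Rel (m - 1) (n - 1) := by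
    intro m n h
    have h2 := inv [x.1 m] m n h
    simp only [run_cons, run_nil] at h2
    rw [mv_left hP rfl, mv_left hP (letters m n h).1.symm] at h2
    exact h2
  have base : Rel 0 s := ⟨κ, hκ, by rw [shS_zero]; exact hs⟩
  have all : ∀ i : ℤ, Rel i (i + s) := by
    intro i
    induction i using Int.induction_on with
    | zero => simpa using base
    | succ i ih =>
      have := up _ _ ih
      rwa [show (i : ℤ) + s + 1 = i + 1 + s by ring] at this
    | pred i ih =>
      have := down _ _ ih
      rwa [show -(i : ℤ) + s - 1 = -i - 1 + s by ring] at this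
  exact hxp (Per.of_int hs0 (fun i => ((letters _ _ (all i)).1).symm))

end Dat

end Pool.Agent.Lib_helper71.AF
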