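import Pool.Agent.Lib_helper71.AF.StepA

/-! Steps B and C: commutation from residual finiteness, and the structure of moved lines. -/

namespace Pool.Agent.Lib_helper71.AF

set_option linter.unusedSectionVars false
set_option linter.unusedVariables false

variable {A : Type*} {F : Set (List A)} [DecidableEq A]

/-- residual finiteness in terms of normal subgroups of finite index -/
def RF (Γ : Type*) [Group Γ] : Prop :=
  ∀ g : Γ, g ≠ 1 → ∃ H : Subgroup Γ, H.Normal ∧ H.FiniteIndex ∧ g ∉ H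

theorem exists_cox [Fintype A] : ∃ c : List A, Cox c :=
  ⟨Finset.univ.toList, Finset.nodup_toList _, fun a => by simp⟩

theorem exists_run {x : ℤ → A} (hx : Proper x) (n : ℤ) : ∃ w, run x w 0 = n := by
  induction n using Int.induction_on with
  | zero => exact ⟨[], rfl⟩
  | succ n ih =>
    obtain ⟨w, hw⟩ := ih
    refine ⟨w ++ [x (n + 1)], ?_⟩
    rw [run_append, hw, run_cons, run_nil, mv_right rfl]
  | pred n ih =>
    obtain ⟨w, hw⟩ := ih
    refine ⟨w ++ [x (-n)], ?_⟩
    rw [run_append, hw, run_cons, run_nil, mv_left hx rfl]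

namespace Dat

variable {Γ : Type*} [Group Γ] [MulAction Γ (SF F)] (D : Dat F Γ)
include D
variable {R : ℕ}

theorem stepB [Fintype A] (hR : Loc F R) (hRF : RF Γ) {j : ℕ}
    (hj : D.Nj R (j + 1) = ⊥) {κ k : Γ} (hκ : κ ∈ D.Nj R 0) (hk : k ∈ D.Nj R j) :
    k * κ = κ * k := by
  by_contra hne
  have h1 : κ⁻¹ * k * κ * k⁻¹ ≠ 1 := by
    intro h
    apply hne
    have h2 : κ⁻¹ * k * κ = k := mul_inv_eq_one.1 h
    have h3 : κ * (κ⁻¹ * k * κ) = κ * k := by rw [h2]
    rw [← h3]; group
  obtain ⟨H, hH1, hH2, hH3⟩ := hRF _ h1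
  obtain ⟨c, hc⟩ := exists_cox (A := A)
  exact hH3 (D.commutator_mem hR hj hκ hk hc H)

theorem stepC [Fintype A] (hR : Loc F R) {j : ℕ}
    (hcom : ∀ k ∈ D.Nj R j, ∀ k' ∈ D.Nj R j, k * k' = k' * k) {k : Γ} (hk : k ∈ D.Nj R j)
    {x : SF F} (hx : (NC F R x.1).ncard ≤ j + 1) (hkx : k • x ≠ x) :
    ∃ s : ℤ, s % 2 = 1 ∧ k • x = shS s x ∧ (∀ n, x.1 (n + 1) = x.1 (s - n)) ∧
      ∀ k' ∈ D.Nj R j, ∀ n, k' • shS n x = shS n x ∨ k' • shS n x = shS (s - n) x := by
  classical
  have hP := D.proper x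
  have hNC : (NC F R x.1).Nonempty := by
    by_contra h
    rw [Set.not_nonempty_iff_eq_empty] at h
    exact hkx (D.Nj_smul R hk x (by rw [h]; simp))
  have hxp : ¬ Per x.1 := D.not_per_of_nc hR hNC
  obtain ⟨p, hp⟩ := hNC
  let Rel : ℤ → ℤ → Prop := fun m n => ∃ k ∈ D.Nj R j, k • shS m x = shS n x
  have inv : ∀ (w : List A) (m n : ℤ), Rel m n → Rel (run x.1 w m) (run x.1 w n) := by
    rintro w m n ⟨κ, h1, h2⟩
    refine ⟨D.wd w * κ * (D.wd w)⁻¹, (D.Nj_normal R j).conj_mem _ h1 _, ?_⟩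
    rw [← D.wd_smul, mul_smul, inv_smul_smul, mul_smul, h2, D.wd_smul]
  have symm : ∀ m n, Rel m n → Rel n m := by
    rintro m n ⟨κ, hk1, hk2⟩
    refine ⟨κ⁻¹, (D.Nj R j).inv_mem hk1, ?_⟩
    rw [← hk2, inv_smul_smul]
  have trans : ∀ m n r, Rel m n → Rel n r → Rel m r := by
    rintro m n r ⟨κ, hk1, hk2⟩ ⟨κ', hk1', hk2'⟩
    exact ⟨κ' * κ, (D.Nj R j).mul_mem hk1' hk1, by rw [mul_smul, hk2, hk2']⟩
  have nontriv : ∀ n, ∃ m, Rel n m ∧ m ≠ n := by
    intro n
    obtain ⟨w, hw⟩ := exists_run hP n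
    obtain ⟨t, ht⟩ := D.smul_eq k x
    have h0 : Rel 0 t := ⟨k, hk, by rw [shS_zero, ht]⟩
    have h1 := inv w _ _ h0
    rw [hw] at h1
    refine ⟨_, h1, ?_⟩
    intro h
    have h2 : t = 0 := run_inj hP w (by rw [h, hw])
    rw [h2, shS_zero] at ht
    exact hkx ht
  have bdd : ∀ n, ∃ T : ℤ, ∀ m, Rel n m → |m| ≤ T := by
    intro n
    obtain ⟨m1, ⟨k1, hk1, hk1'⟩, hne⟩ := nontriv n
    have hk1m := hk1
    obtain ⟨l1, rfl, hl1⟩ := hk1
    refine ⟨l1.length + j + 2 + |p|, ?_⟩
    rintro m ⟨k', hk', hk''⟩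
    have hmv : D.wd l1 • shS m x ≠ shS m x := by
      rw [← hk'', ← mul_smul, hcom _ hk1m _ hk', mul_smul, hk1']
      intro h
      have h2 := smul_left_cancel _ h
      apply hxp
      exact per_of_shS h2 hne
    have := D.localj' hR hl1 (shS m x) (by rw [shS_val, nc_sh_card]; exact hx) hmv (p - m)
      (by rw [shS_val, nc_sh]; simpa using hp)
    have h3 : |m| ≤ |p - m| + |p| := by
      have e : m = p - (p - m) := by ring
      calc |m| = |p - (p - m)| := by rw [← e]
        _ ≤ |p| + |p - m| := abs_sub _ _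
        _ = _ := by ring
    omega
  obtain ⟨c, hc⟩ := exists_cox (A := A)
  have noRT : ∀ m n, m < n → Rel m n → RT x.1 c m → RT x.1 c n → False := by
    intro m n hmn hrel hm hn
    obtain ⟨K, hK0, hK⟩ := rt_orbit hP hc hm hn hmn
    have h1 : ∀ i : ℕ, Rel m (run x.1 (pw c (i * K)) m) := by
      intro i
      induction i with
      | zero => exact ⟨1, (D.Nj R j).one_mem, by simp [pw]⟩
      | succ i ih =>
        have h2 := inv (pw c (i * K)) _ _ hrel
        rw [← hK, ← run_pw_add] at h2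
        have e : (i + 1) * K = K + i * K := by ring
        rw [e]
        exact trans _ _ _ ih h2
    obtain ⟨T, hT⟩ := bdd m
    obtain ⟨i, hi⟩ : ∃ i : ℕ, T - m < i := ⟨(T - m + 1).toNat, by omega⟩
    have h3 := hT _ (h1 i)
    have h4 := (run_pw_rt hP hc (i * K) hm).1
    have h5 : (i : ℤ) ≤ ((i * K : ℕ) : ℤ) := by
      exact_mod_cast Nat.le_mul_of_pos_right i hK0
    have h6 := le_abs_self (run x.1 (pw c (i * K)) m)
    omega
  have noLT : ∀ m n, m < n → Rel m n → ¬ RT x.1 c m → ¬ RT x.1 c n → False := by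
    intro m n hmn hrel hm hn
    obtain ⟨K, hK0, hK⟩ := lt_orbit hP hc hn hm hmn
    have h1 : ∀ i : ℕ, Rel n (run x.1 (pw c (i * K)) n) := by
      intro i
      induction i with
      | zero => exact ⟨1, (D.Nj R j).one_mem, by simp [pw]⟩
      | succ i ih =>
        have h2 := inv (pw c (i * K)) _ _ (symm _ _ hrel)
        rw [← hK, ← run_pw_add] at h2
        have e : (i + 1) * K = K + i * K := by ring
        rw [e]
        exact trans _ _ _ ih h2
    obtain ⟨T, hT⟩ := bdd n
    obtain ⟨i, hi⟩ : ∃ i : ℕ, T + n < i := ⟨(T + n + 1).toNat, by omega⟩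
    have h3 := hT _ (h1 i)
    have h4 := (run_pw_lt hP hc (i * K) hn).1
    have h5 : (i : ℤ) ≤ ((i * K : ℕ) : ℤ) := by
      exact_mod_cast Nat.le_mul_of_pos_right i hK0
    have h6 := neg_abs_le (run x.1 (pw c (i * K)) n)
    omega
  have same : ∀ m n, Rel m n → (RT x.1 c m ↔ RT x.1 c n) → m = n := by
    intro m n hrel hiff
    by_contra hne
    rcases lt_or_gt_of_ne hne with h | h
    · by_cases hm : RT x.1 c m
      · exact noRT m n h hrel hm (hiff.1 hm)
      · exact noLT m n h hrel hm (fun h => hm (hiff.2 h))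
    · by_cases hm : RT x.1 c m
      · exact noRT n m h (symm _ _ hrel) (hiff.1 hm) hm
      · exact noLT n m h (symm _ _ hrel) (fun h => hm (hiff.2 h)) hm
  choose ι hι1 hι2 using nontriv
  have uniq : ∀ n m, Rel n m → m = n ∨ m = ι n := by
    intro n m hrel
    by_cases h1 : m = n
    · left; exact h1
    · right
      apply same _ _ (trans _ _ _ (symm _ _ hrel) (hι1 n))
      have h2 : ¬ (RT x.1 c n ↔ RT x.1 c m) := fun h => h1 (same _ _ hrel h).symm
      have h3 : ¬ (RT x.1 c n ↔ RT x.1 c (ι n)) := fun h => hι2 n (same _ _ (hι1 n) h).symm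
      tauto
  have invol : ∀ n, ι (ι n) = n := by
    intro n
    rcases uniq _ _ (symm _ _ (hι1 n)) with h | h
    · exact absurd h.symm (hι2 n)
    · exact h.symm
  have inj : ∀ m n, ι m = ι n → m = n := by
    intro m n h
    rw [← invol m, h, invol]
  have comm : ∀ a n, ι (mv x.1 a n) = mv x.1 a (ι n) := by
    intro a n
    have h1 := inv [a] _ _ (hι1 n)
    simp only [run_cons, run_nil] at h1
    rcases uniq _ _ h1 with h | h
    · exfalso
      apply hι2 n
      have := congrArg (mv x.1 a) h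
      rw [mv_mv hP, mv_mv hP] at this
      exact this
    · exact h.symm
  have step : ∀ n, ι (n + 1) = ι n + 1 ∨ ι (n + 1) = ι n - 1 := by
    intro n
    have h1 := comm (x.1 (n + 1)) n
    rw [mv_right rfl] at h1
    have h2 := mv_bounds x.1 (x.1 (n + 1)) (ι n)
    have h3 : ι (n + 1) ≠ ι n := fun h => by have := inj _ _ h; omega
    omega
  have econst : ∀ n, ι (n + 1) - ι n = ι (0 + 1) - ι 0 := by
    intro n
    induction n using Int.induction_on with
    | zero => rfl
    | succ n ih =>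
      rw [← ih]
      have h1 := step n
      have h2 := step (n + 1)
      have h3 : ι (n + 1 + 1) ≠ ι n := fun h => by have := inj _ _ h; omega
      omega
    | pred n ih =>
      rw [← ih]
      have h1 := step (-n - 1)
      have h2 := step (-n)
      rw [show (-(n : ℤ) - 1 + 1) = -n by ring] at h1 ⊢
      have h3 : ι (-n + 1) ≠ ι (-n - 1) := fun h => by have := inj _ _ h; omega
      omega
  have lin : ∀ n, ι n = ι 0 + (ι (0 + 1) - ι 0) * n := by
    intro n
    induction n using Int.induction_on with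
    | zero => ring
    | succ n ih =>
      have := econst n
      linarith
    | pred n ih =>
      have := econst (-n - 1)
      rw [show (-(n : ℤ) - 1 + 1) = -n by ring] at this
      linarith
  have hneg : ι (0 + 1) - ι 0 = -1 := by
    rcases step 0 with h | h
    · exfalso
      have e1 : ι (0 + 1) - ι 0 = 1 := by omega
      have e2 := lin (ι 0)
      rw [e1, invol] at e2
      exact hι2 0 (by omega)
    · omega
  set s := ι 0 with hs
  have hι : ∀ n, ι n = s - n := by
    intro n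
    rw [lin n, hneg]; ring
  refine ⟨s, ?_, ?_, ?_, ?_⟩
  · rcases Int.even_or_odd s with ⟨e, he⟩ | h
    · exfalso
      have := hι e
      exact hι2 e (by omega)
    · exact Int.odd_iff.1 h
  · obtain ⟨t, ht⟩ := D.smul_eq k x
    have h0 : Rel 0 t := ⟨k, hk, by rw [shS_zero, ht]⟩
    rcases uniq _ _ h0 with h | h
    · rw [h, shS_zero] at ht
      exact absurd ht hkx
    · rw [ht, h]
  · intro n
    have h1 := comm (x.1 (n + 1)) n
    rw [mv_right rfl, hι, hι] at h1
    unfold mv at h1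
    split_ifs at h1 with h2 h3
    · omega
    · exact h3.symm
    · omega
  · intro k' hk' n
    obtain ⟨m, hm⟩ := D.smul_eq k' (shS n x)
    rw [shS_shS] at hm
    rcases uniq n (m + n) ⟨k', hk', hm⟩ with h | h
    · left; rw [hm, h]
    · right; rw [hm, h, hι]

end Dat

end Pool.Agent.Lib_helper71.AF
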