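import Pool.Agent.Lib_helper71.AF.StepV

/-! Step D: the folding argument on the half line. -/

namespace Pool.Agent.Lib_helper71.AF

set_option linter.unusedSectionVars false
set_option linter.unusedVariables false

variable {A : Type*} {F : Set (List A)} [DecidableEq A]

/-- an invariant equivalence relation on the half line folds the labels -/
theorem fold_lemma {x : ℤ → A} (hx : Proper x) (E : ℤ → ℤ → Prop)
    (symm : ∀ a b, E a b → E b a) (trans : ∀ a b c, E a b → E b c → E a c)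
    (inv : ∀ c a b, E a b → E (mv x c a) (mv x c b)) (neg : ∀ a b, E a b → E (-1 - a) b)
    {q : ℤ} (hq : ∃ p, 0 ≤ p ∧ p < q ∧ E p q)
    (hmin : ∀ a b, 0 ≤ a → a < b → b < q → ¬ E a b) (i : ℕ) (hi : (i : ℤ) < q) :
    x (q + i) = x (q - i) := by
  obtain ⟨p, hp0, hpq, hE⟩ := hq
  have h1 : E (q - 1) q := by
    by_cases hpq1 : p = q - 1
    · rw [← hpq1]; exact hE
    · exfalso
      have h2 := inv (x q) _ _ hE
      rw [mv_left hx (n := q) rfl] at h2
      have h3 := mv_bounds x (x q) p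
      have h4 : mv x (x q) p ≠ q - 1 := by
        intro h
        rw [← mv_left hx (n := q) rfl] at h
        have h5 := congrArg (mv x (x q)) h
        rw [mv_mv hx, mv_mv hx] at h5
        omega
      by_cases h5 : 0 ≤ mv x (x q) p
      · exact hmin _ _ h5 (by omega) (by omega) h2
      · have h6 := neg _ _ h2
        exact hmin _ _ (by omega) (by omega) (by omega) h6
  have key : ∀ N : ℕ, ∀ i ≤ N, (i : ℤ) < q → E (q + i) (q - 1 - i) ∧ x (q + i) = x (q - i) := by
    intro N
    induction N with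
    | zero =>
      intro i hi hiq
      obtain rfl : i = 0 := by omega
      simp only [Nat.cast_zero, add_zero, sub_zero, and_true]
      exact symm _ _ h1
    | succ N ih =>
      intro i hi hiq
      rcases Nat.lt_or_ge N i with hlt | hle
      · obtain rfl : i = N + 1 := by omega
        push_cast at hiq ⊢
        obtain ⟨h2, -⟩ := ih N le_rfl (by omega)
        have h3 := inv (x (q - 1 - N)) _ _ h2
        rw [mv_left hx (n := q - 1 - N) rfl] at h3
        unfold mv at h3
        split_ifs at h3 with h4 h5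
        · refine ⟨?_, ?_⟩
          · have e1 : q + ((N : ℤ) + 1) = q + N + 1 := by ring
            have e2 : q - 1 - ((N : ℤ) + 1) = q - 1 - N - 1 := by ring
            rw [e1, e2]; exact h3
          · have e1 : q + ((N : ℤ) + 1) = q + N + 1 := by ring
            have e2 : q - ((N : ℤ) + 1) = q - 1 - N := by ring
            rw [e1, e2]; exact h4
        · exfalso
          rcases Nat.eq_zero_or_pos N with h0 | h0
          · subst h0
            simp only [Nat.cast_zero, add_zero, sub_zero] at h3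
            exact hmin _ _ (by omega) (by omega) (by omega) (symm _ _ h3)
          · obtain ⟨K, rfl⟩ : ∃ K, N = K + 1 := ⟨N - 1, by omega⟩
            obtain ⟨h6, -⟩ := ih K (by omega) (by push_cast at hiq; omega)
            push_cast at h3 hiq
            have e1 : q + ((K : ℤ) + 1) - 1 = q + K := by ring
            rw [e1] at h3
            exact hmin _ _ (by omega) (by omega) (by omega) (trans _ _ _ (symm _ _ h3) h6)
        · exfalso
          exact hmin _ _ (by omega) (by omega) (by omega) (trans _ _ _ (symm _ _ h3) h2)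
      · exact ih i hle hiq
  exact (key i i le_rfl hi).2

/-- a point with two symmetry centres far apart has no non-cyclic window near the centre -/
theorem cyc_of_fold {R : ℕ} (hR : Loc F R) {x : ℤ → A} (hx : x ∈ SF F)
    (hsym : ∀ i, x (-i) = x i) {q : ℤ} (hq : R < q) (hfold : ∀ i : ℕ, (i : ℤ) < q →
      x (q + i) = x (q - i)) {p : ℤ} (hp : |p| + R < q) : Cyc F R x p := by
  obtain ⟨u, hu, hper, hag⟩ := per_of_repeat hR hx (a := -q) (b := q) (by omega) (by
    intro k hk
    rw [hfold k (by omega), ← hsym (q - k)]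
    congr 1; ring)
  have h1 := neg_abs_le p
  have h2 := le_abs_self p
  exact ⟨u, hu, Per.of_int (p := q - -q) (by omega) hper, p, fun k hk => hag _ (by omega) (by omega)⟩

/-- indicator of the class of `a` -/
def ee (a n : ℤ) : ZMod 2 := if n = a ∨ n = -1 - a then 1 else 0

theorem ee_neg (a n : ℤ) : ee (-1 - a) n = ee a n := by
  unfold ee
  have : (n = -1 - a ∨ n = -1 - (-1 - a)) ↔ (n = a ∨ n = -1 - a) := by omega
  simp only [this]

theorem ee_neg' (a n : ℤ) : ee a (-1 - n) = ee a n := by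
  unfold ee
  have : (-1 - n = a ∨ -1 - n = -1 - a) ↔ (n = a ∨ n = -1 - a) := by omega
  simp only [this]

theorem mv_sym {x : ℤ → A} (hx : Proper x) (hsym : ∀ i, x (-i) = x i) (a : A) (n : ℤ) :
    mv x a (-1 - n) = -1 - mv x a n := by
  have h := mv_reflect hx (-1) a n
  have : (fun i => x (-1 + 1 - i)) = x := by
    funext i
    rw [← hsym i]
    congr 1; ring
  rwa [this] at h

theorem ee_mv {x : ℤ → A} (hx : Proper x) (hsym : ∀ i, x (-i) = x i) (c : A) (a n : ℤ) :
    ee (mv x c a) n = ee a (mv x c n) := by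
  unfold ee
  have : (n = mv x c a ∨ n = -1 - mv x c a) ↔ (mv x c n = a ∨ mv x c n = -1 - a) := by
    rw [← mv_sym hx hsym]
    constructor
    · rintro (h | h)
      · left; rw [h, mv_mv hx]
      · right; rw [h, mv_mv hx]
    · rintro (h | h)
      · left; rw [← h, mv_mv hx]
      · right; rw [← h, mv_mv hx]
  simp only [this]

namespace Dat

variable {Γ : Type*} [Group Γ] [MulAction Γ (SF F)] (D : Dat F Γ)

open Classical in
/-- indicator of the positions moved by `m` -/
noncomputable def chi (_D : Dat F Γ) (x : SF F) (m : Γ) (n : ℤ) : ZMod 2 :=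
  if m • shS n x = shS n x then 0 else 1

/-- the data on a symmetric line -/
structure LineD (D : Dat F Γ) (x : SF F) (M : Subgroup Γ) : Prop where
  sym : ∀ i, x.1 (-i) = x.1 i
  np : ¬ Per x.1
  normal : M.Normal
  two : ∀ m ∈ M, ∀ n, m • shS n x = shS n x ∨ m • shS n x = shS (-1 - n) x
  bdd : ∀ m ∈ M, ∃ T : ℤ, ∀ n, m • shS n x ≠ shS n x → |n| ≤ T
  faithful : ∀ m ∈ M, (∀ n, m • shS n x = shS n x) → m = 1
  nontriv : ∃ m ∈ M, m ≠ 1

include D

theorem chi_zero {x : SF F} {m : Γ} {n : ℤ} : D.chi x m n = 0 ↔ m • shS n x = shS n x := by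
  unfold chi
  split_ifs with h <;> simp [h]

theorem chi_one {x : SF F} {m : Γ} {n : ℤ} : D.chi x m n = 1 ↔ m • shS n x ≠ shS n x := by
  unfold chi
  split_ifs with h <;> simp [h]

theorem chi_congr {x : SF F} {m m' : Γ} {n n' : ℤ}
    (h : (m • shS n x = shS n x) ↔ (m' • shS n' x = shS n' x)) :
    D.chi x m n = D.chi x m' n' := by
  by_cases h1 : m' • shS n' x = shS n' x
  · rw [D.chi_zero.2 h1, D.chi_zero.2 (h.2 h1)]
  · rw [D.chi_one.2 h1, D.chi_one.2 (fun h2 => h1 (h.1 h2))]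

theorem chi_id {x : SF F} {n : ℤ} : D.chi x 1 n = 0 := by
  rw [D.chi_zero, one_smul]

theorem chi_inv {x : SF F} {m : Γ} {n : ℤ} : D.chi x m⁻¹ n = D.chi x m n := by
  apply D.chi_congr
  rw [inv_smul_eq_iff, eq_comm]

theorem phi_inv (a : A) : (D.φ a)⁻¹ = D.φ a := by
  have := D.wd_reverse [a]
  simpa [wd] using this.symm

theorem chi_conj {x : SF F} {m : Γ} (a : A) (n : ℤ) :
    D.chi x (D.φ a * m * (D.φ a)⁻¹) n = D.chi x m (mv x.1 a n) := by
  apply D.chi_congr
  rw [mul_smul, mul_smul, ← eq_inv_smul_iff, D.phi_inv, D.smul_sh]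

variable {D}
variable {x : SF F} {M : Subgroup Γ} (hL : LineD D x M)
include hL

theorem chi_neg {m : Γ} (hm : m ∈ M) (n : ℤ) : D.chi x m (-1 - n) = D.chi x m n := by
  have key : ∀ n, m • shS n x = shS n x → m • shS (-1 - n) x = shS (-1 - n) x := by
    intro n h
    rcases hL.two m hm (-1 - n) with h1 | h1
    · exact h1
    · rw [show -1 - (-1 - n) = n by ring] at h1
      rw [← h] at h1
      have h2 := smul_left_cancel _ h1
      rw [h2, h]
  apply D.chi_congr
  constructor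
  · intro h
    have := key _ h
    rwa [show -1 - (-1 - n) = n by ring] at this
  · exact key n

theorem chi_mul {m m' : Γ} (hm : m ∈ M) (hm' : m' ∈ M) (n : ℤ) :
    D.chi x (m * m') n = D.chi x m n + D.chi x m' n := by
  by_cases h' : m' • shS n x = shS n x
  · rw [D.chi_zero.2 h', add_zero]
    unfold chi
    rw [mul_smul, h']
  · have h1 := (hL.two m' hm' n).resolve_left h'
    rw [D.chi_one.2 h']
    by_cases h : m • shS n x = shS n x
    · rw [D.chi_zero.2 h, zero_add, D.chi_one, mul_smul, h1]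
      have h2 := D.chi_neg hL hm n
      rw [D.chi_zero.2 h, D.chi_zero] at h2
      rw [h2, ← h1]
      exact h'
    · rw [D.chi_one.2 h, show (1 : ZMod 2) + 1 = 0 by decide, D.chi_zero, mul_smul, h1]
      have h2 := D.chi_neg hL hm n
      rw [D.chi_one.2 h, D.chi_one] at h2
      have h3 := (hL.two m hm (-1 - n)).resolve_left h2
      rw [h3]
      congr 1
      ring

/-- a nontrivial element in `M ⊓ H` -/
theorem exists_nontriv [Fintype A] (H : Subgroup Γ) [H.Normal] [H.FiniteIndex] :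
    ∃ m ∈ M ⊓ H, ∃ n, D.chi x m n = 1 := by
  obtain ⟨c, hc⟩ := exists_cox (A := A)
  obtain ⟨N, hN0, -, hN⟩ := Subgroup.exists_pow_mem_of_index_ne_zero
    (H := H) Subgroup.FiniteIndex.index_ne_zero (D.wd c)
  obtain ⟨k, hk, hk1⟩ := hL.nontriv
  have hMn := hL.normal
  refine ⟨D.wd c ^ N * k * (D.wd c ^ N)⁻¹ * k⁻¹, ⟨?_, ?_⟩, ?_⟩
  · exact M.mul_mem (hMn.conj_mem _ hk _) (M.inv_mem hk)
  · have e : D.wd c ^ N * k * (D.wd c ^ N)⁻¹ * k⁻¹ = D.wd c ^ N * (k * (D.wd c ^ N)⁻¹ * k⁻¹) := by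
      group
    rw [e]
    exact H.mul_mem hN (Subgroup.Normal.conj_mem inferInstance _ (H.inv_mem hN) k)
  · by_contra hcon
    push Not at hcon
    have h1 : D.wd c ^ N * k * (D.wd c ^ N)⁻¹ * k⁻¹ = 1 := by
      apply hL.faithful
      · exact M.mul_mem (hMn.conj_mem _ hk _) (M.inv_mem hk)
      · intro n
        have := hcon n
        rw [ne_eq, D.chi_one, not_not] at this
        exact this
    have h2 : D.wd c ^ N * k = k * D.wd c ^ N := by
      rw [mul_inv_eq_one] at h1
      exact mul_inv_eq_iff_eq_mul.1 h1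
    obtain ⟨n, hn⟩ : ∃ n, k • shS n x ≠ shS n x := by
      by_contra h
      push Not at h
      exact hk1 (hL.faithful k hk h)
    obtain ⟨T, hT⟩ := hL.bdd k hk
    obtain ⟨i, hi⟩ : ∃ i : ℕ, T + |n| < i := ⟨(T + |n| + 1).toNat, by omega⟩
    have h3 : (D.wd c ^ N) ^ i * k = k * (D.wd c ^ N) ^ i :=
      (show Commute (D.wd c ^ N) k from h2).pow_left i
    have h4 : k • shS (run x.1 (pw c (N * i)) n) x ≠ shS (run x.1 (pw c (N * i)) n) x := by
      rw [← D.wd_smul, D.wd_pw, pow_mul, ← mul_smul, ← h3, mul_smul]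
      intro h
      exact hn (smul_left_cancel _ h)
    have h5 := hT _ h4
    have h6 := run_pw_abs (D.proper x) hc (N * i) n
    have h7 : (i : ℤ) ≤ ((N * i : ℕ) : ℤ) := by
      exact_mod_cast Nat.le_mul_of_pos_left i hN0
    have h8 : |run x.1 (pw c (N * i)) n - n| ≤ |run x.1 (pw c (N * i)) n| + |n| := abs_sub _ _
    omega

/-- monic elements -/
theorem exists_monic [Fintype A] (H : Subgroup Γ) [H.Normal] [H.FiniteIndex] :
    ∃ v : ℕ, ∀ t : ℕ, v ≤ t → ∃ m ∈ M ⊓ H, D.chi x m t = 1 ∧ ∀ i : ℤ, t < i → D.chi x m i = 0 := by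
  obtain ⟨m, hm, n, hn⟩ := D.exists_nontriv hL H
  obtain ⟨T, hT⟩ := hL.bdd m hm.1
  obtain ⟨ub, hub1, hub2⟩ := Int.exists_greatest_of_bdd (P := fun n => D.chi x m n = 1)
    ⟨T, fun z hz => (le_abs_self z).trans (hT z (D.chi_one.1 hz))⟩ ⟨n, hn⟩
  have h0 : 0 ≤ ub := by
    have h1 := hub2 (-1 - ub) (by rw [D.chi_neg hL hm.1]; exact hub1)
    omega
  have z2 : ∀ z : ZMod 2, z ≠ 1 → z = 0 := by decide
  refine ⟨ub.toNat, ?_⟩
  intro t ht
  induction t, ht using Nat.le_induction with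
  | base =>
    refine ⟨m, hm, ?_, ?_⟩
    · rw [Int.toNat_of_nonneg h0]; exact hub1
    · intro i hi
      apply z2
      intro h
      have := hub2 i h
      omega
  | succ t ht ih =>
    obtain ⟨m', hm', h1, h2⟩ := ih
    refine ⟨D.φ (x.1 (t + 1)) * m' * (D.φ (x.1 (t + 1)))⁻¹, ⟨?_, ?_⟩, ?_, ?_⟩
    · exact hL.normal.conj_mem _ hm'.1 _
    · exact Subgroup.Normal.conj_mem inferInstance _ hm'.2 _
    · rw [D.chi_conj]
      push_cast
      rw [mv_left (D.proper x) rfl]
      rw [show (t : ℤ) + 1 - 1 = t by ring]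
      exact h1
    · intro i hi
      rw [D.chi_conj]
      apply h2
      have := mv_bounds x.1 (x.1 (t + 1)) i
      push_cast at hi
      omega

/-- the equivalence relation -/
def Eq' (D : Dat F Γ) (x : SF F) (M H : Subgroup Γ) (a b : ℤ) : Prop :=
  ∃ m ∈ M ⊓ H, ∀ n, D.chi x m n = ee a n + ee b n

theorem exists_coincidence [Fintype A] (H : Subgroup Γ) [H.Normal] [H.FiniteIndex] :
    ∃ a b : ℤ, 0 ≤ a ∧ a < b ∧ Eq' D x M H a b := by
  obtain ⟨v, hv⟩ := D.exists_monic hL H
  have z2 : ∀ z : ZMod 2, z ≠ 0 → z = 1 := by decide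
  have z3 : ∀ A X B Y : ZMod 2, A + X = B + Y → X + Y = A + B := by decide
  have red : ∀ t : ℕ, ∀ u : ℤ → ZMod 2, (∀ i : ℤ, t ≤ i → u i = 0) →
      ∃ m ∈ M ⊓ H, ∀ i : ℤ, v ≤ i → u i + D.chi x m i = 0 := by
    intro t
    induction t with
    | zero =>
      intro u hu
      refine ⟨1, (M ⊓ H).one_mem, fun i hi => ?_⟩
      rw [D.chi_id, hu i (by push_cast; omega), add_zero]
    | succ t ih =>
      intro u hu
      rcases Nat.lt_or_ge t v with h1 | h1
      · refine ⟨1, (M ⊓ H).one_mem, fun i hi => ?_⟩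
        rw [D.chi_id, hu i (by push_cast; omega), add_zero]
      · obtain ⟨w, hw, hw1, hw2⟩ := hv t h1
        by_cases h2 : u t = 0
        · apply ih
          intro i hi
          rcases eq_or_lt_of_le hi with h | h
          · rw [← h]; exact h2
          · exact hu i (by push_cast; omega)
        · obtain ⟨m, hm, hm1⟩ := ih (fun i => u i + D.chi x w i) (by
            intro i hi
            rcases eq_or_lt_of_le hi with h | h
            · rw [← h, z2 _ h2, hw1]; decide
            · rw [hu i (by push_cast; omega), hw2 i h, add_zero])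
          refine ⟨w * m, (M ⊓ H).mul_mem hw hm, fun i hi => ?_⟩
          rw [D.chi_mul hL hw.1 hm.1, ← add_assoc]
          exact hm1 i hi
  have h1 : ∀ n : ℕ, ∃ m ∈ M ⊓ H, ∀ i : ℤ, v ≤ i → ee n i + D.chi x m i = 0 := by
    intro n
    apply red (n + 1)
    intro i hi
    unfold ee
    rw [if_neg]
    push_cast at hi
    omega
  choose m hm hm1 using h1
  obtain ⟨a, b, hab, hf⟩ := Finite.exists_ne_map_eq_of_infinite
    (fun (n : ℕ) (i : Fin v) => ee n ((i : ℕ) : ℤ) + D.chi x (m n) ((i : ℕ) : ℤ))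
  have h2 : ∀ i : ℤ, 0 ≤ i → ee a i + D.chi x (m a) i = ee b i + D.chi x (m b) i := by
    intro i hi
    rcases lt_or_ge i v with h | h
    · have := congrFun hf ⟨i.toNat, by omega⟩
      simp only [Int.toNat_of_nonneg hi] at this
      exact this
    · rw [hm1 a i h, hm1 b i h]
  have h3 : ∀ i : ℤ, ee a i + D.chi x (m a) i = ee b i + D.chi x (m b) i := by
    intro i
    rcases lt_or_ge i 0 with h | h
    · have := h2 (-1 - i) (by omega)
      rwa [ee_neg', ee_neg', D.chi_neg hL (hm a).1, D.chi_neg hL (hm b).1] at this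
    · exact h2 i h
  have h4 : ∀ n, D.chi x (m a * m b) n = ee a n + ee b n := by
    intro n
    rw [D.chi_mul hL (hm a).1 (hm b).1]
    exact z3 _ _ _ _ (h3 n)
  rcases lt_or_gt_of_ne hab with h | h
  · exact ⟨a, b, by omega, by omega, m a * m b, (M ⊓ H).mul_mem (hm a) (hm b), h4⟩
  · exact ⟨b, a, by omega, by omega, m a * m b, (M ⊓ H).mul_mem (hm a) (hm b),
      fun n => by rw [h4, add_comm]⟩

/-- separation -/
theorem exists_sep (hRF : RF Γ) (N : ℕ) : ∃ H : Subgroup Γ, H.Normal ∧ H.FiniteIndex ∧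
    ∀ a b : ℤ, 0 ≤ a → a < b → b ≤ N → ¬ Eq' D x M H a b := by
  have h1 : ∀ ab : Fin (N + 1) × Fin (N + 1), ∃ H : Subgroup Γ, H.Normal ∧ H.FiniteIndex ∧
      (ab.1 < ab.2 → ¬ Eq' D x M H (ab.1 : ℕ) (ab.2 : ℕ)) := by
    rintro ⟨a, b⟩
    by_cases h : ∃ m ∈ M, m ≠ 1 ∧ ∀ n, D.chi x m n = ee ((a : ℕ) : ℤ) n + ee ((b : ℕ) : ℤ) n
    · obtain ⟨m, hm, hm1, hm2⟩ := h
      obtain ⟨H, hH1, hH2, hH3⟩ := hRF m hm1
      refine ⟨H, hH1, hH2, fun _ => ?_⟩
      rintro ⟨m', hm', hm2'⟩
      have h2 : m' * m⁻¹ = 1 := by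
        apply hL.faithful _ (M.mul_mem hm'.1 (M.inv_mem hm))
        intro n
        rw [← D.chi_zero, D.chi_mul hL hm'.1 (M.inv_mem hm), D.chi_inv, hm2, hm2']
        have : ∀ z : ZMod 2, z + z = 0 := by decide
        exact this _
      have h3 : m' = m := mul_inv_eq_one.1 h2
      exact hH3 (h3 ▸ hm'.2)
    · refine ⟨⊤, inferInstance, inferInstance, fun hab => ?_⟩
      dsimp only at hab ⊢
      rintro ⟨m', hm', hm2'⟩
      apply h
      refine ⟨m', hm'.1, ?_, hm2'⟩
      rintro rfl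
      have h2 := hm2' ((a : ℕ) : ℤ)
      rw [D.chi_id] at h2
      unfold ee at h2
      have h3 : (a : ℕ) < (b : ℕ) := hab
      rw [if_pos (Or.inl rfl), if_neg (by omega)] at h2
      exact absurd h2 (by decide)
  choose H hH1 hH2 hH3 using h1
  refine ⟨⨅ ab, H ab, Subgroup.normal_iInf_normal hH1, Subgroup.finiteIndex_iInf hH2, ?_⟩
  intro a b ha hab hb
  rintro ⟨m, hm, hm2⟩
  have h4 := hH3 (⟨a.toNat, by omega⟩, ⟨b.toNat, by omega⟩) (by
    rw [Fin.lt_def]; simp only; omega)
  simp only [Int.toNat_of_nonneg ha, Int.toNat_of_nonneg (ha.trans hab.le)] at h4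
  apply h4
  exact ⟨m, ⟨hm.1, (Subgroup.mem_iInf.1 hm.2) _⟩, hm2⟩

/-- the final contradiction -/
theorem stepD [Fintype A] {R : ℕ} (hR : Loc F R) (hRF : RF Γ) {p : ℤ}
    (hp : p ∈ NC F R x.1) : False := by
  obtain ⟨H, hH1, hH2, hH3⟩ := D.exists_sep hL hRF (p.natAbs + R)
  have z4 : ∀ z y w : ZMod 2, z + y + (y + w) = z + w := by decide
  have symm : ∀ a b, Eq' D x M H a b → Eq' D x M H b a := by
    rintro a b ⟨m, hm, h⟩
    exact ⟨m, hm, fun n => by rw [h, add_comm]⟩
  have trans : ∀ a b c, Eq' D x M H a b → Eq' D x M H b c → Eq' D x M H a c := by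
    rintro a b c ⟨m, hm, h⟩ ⟨m', hm', h'⟩
    refine ⟨m * m', (M ⊓ H).mul_mem hm hm', fun n => ?_⟩
    rw [D.chi_mul hL hm.1 hm'.1, h, h', z4]
  have inv : ∀ c a b, Eq' D x M H a b → Eq' D x M H (mv x.1 c a) (mv x.1 c b) := by
    rintro c a b ⟨m, hm, h⟩
    refine ⟨D.φ c * m * (D.φ c)⁻¹, ⟨hL.normal.conj_mem _ hm.1 _, hH1.conj_mem _ hm.2 _⟩,
      fun n => ?_⟩
    rw [D.chi_conj, h, ee_mv (D.proper x) hL.sym, ee_mv (D.proper x) hL.sym]
  have neg : ∀ a b, Eq' D x M H a b → Eq' D x M H (-1 - a) b := by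
    rintro a b ⟨m, hm, h⟩
    exact ⟨m, hm, fun n => by rw [ee_neg, h]⟩
  have hex : ∃ q : ℕ, ∃ a : ℤ, 0 ≤ a ∧ a < q ∧ Eq' D x M H a q := by
    obtain ⟨a, b, ha, hab, hE⟩ := D.exists_coincidence hL H
    refine ⟨b.toNat, a, ha, by omega, ?_⟩
    rw [Int.toNat_of_nonneg (by omega)]
    exact hE
  classical
  have hq := Nat.find_spec hex
  have hqmin : ∀ a b : ℤ, 0 ≤ a → a < b → b < (Nat.find hex : ℤ) → ¬ Eq' D x M H a b := by
    intro a b ha hab hb hE
    have := Nat.find_min hex (m := b.toNat) (by omega)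
    apply this
    refine ⟨a, ha, by omega, ?_⟩
    rw [Int.toNat_of_nonneg (by omega)]
    exact hE
  have hfold := fold_lemma (D.proper x) (Eq' D x M H) symm trans inv neg hq hqmin
  have hqn : (p.natAbs : ℤ) + R < (Nat.find hex : ℤ) := by
    by_contra hcon
    obtain ⟨a, ha, haq, hE⟩ := hq
    exact hH3 a _ ha haq (by rw [Nat.cast_add]; omega) hE
  apply hp
  exact cyc_of_fold hR x.2 hL.sym (by omega) hfold (by rw [← Int.natCast_natAbs]; omega)

end Dat

end Pool.Agent.Lib_helper71.AF
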