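import Pool.Agent.Lib_helper71.AF.StepC

/-! Finiteness of the set of moved points, and the choice of a line on which a normal subgroup
acts faithfully. -/

namespace Pool.Agent.Lib_helper71.AF

set_option linter.unusedSectionVars false
set_option linter.unusedVariables false

variable {A : Type*} {F : Set (List A)} [DecidableEq A]

namespace Dat

variable {Γ : Type*} [Group Γ] [MulAction Γ (SF F)] (D : Dat F Γ)

/-- points with few non-cyclic windows which are moved by `k` -/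
def V (_D : Dat F Γ) (R j : ℕ) (k : Γ) : Set (SF F) :=
  {x | (NC F R x.1).ncard ≤ j + 1 ∧ k • x ≠ x}

/-- lines which are moved by `k` -/
def Ln (D : Dat F Γ) (R j : ℕ) (k : Γ) : Set (MulAction.orbitRel.Quotient Γ (SF F)) :=
  (fun x => Quotient.mk (MulAction.orbitRel Γ (SF F)) x) '' D.V R j k

include D
variable {R : ℕ}

theorem nc_of_moved [Finite A] (hR : Loc F R) {j : ℕ} {k : Γ} (hk : k ∈ D.Nj R j)
    {x : SF F} (hkx : k • x ≠ x) : (NC F R x.1).Nonempty := by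
  by_contra h
  rw [Set.not_nonempty_iff_eq_empty] at h
  exact hkx (D.Nj_smul R hk x (by rw [h]; simp))

theorem V_eq [Fintype A] (hR : Loc F R) {j : ℕ}
    (hcom : ∀ k ∈ D.Nj R j, ∀ k' ∈ D.Nj R j, k * k' = k' * k) {l : List A}
    (hl : D.Zw R j l) {x y : SF F} (hx : x ∈ D.V R j (D.wd l)) (hy : y ∈ D.V R j (D.wd l))
    {T : ℕ} (hT : 2 * l.length + j + 2 + R ≤ T)
    (hxy : ∀ i : ℤ, -(T : ℤ) ≤ i → i ≤ T → x.1 i = y.1 i) : x = y := by
  have hk : D.wd l ∈ D.Nj R j := ⟨l, rfl, hl⟩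
  obtain ⟨hxc, hxm⟩ := hx
  obtain ⟨hyc, hym⟩ := hy
  have hxn := D.nc_of_moved hR hk hxm
  have hyn := D.nc_of_moved hR hk hym
  have hxp := D.not_per_of_nc hR hxn
  have hyp := D.not_per_of_nc hR hyn
  have hxl := D.localj' hR hl x hxc hxm
  have hyl := D.localj' hR hl y hyc hym
  have hb := run_bounds x.1 l 0
  set s := run x.1 l 0 with hs
  have hs0 : s ≠ 0 := by
    intro h
    apply hxm
    rw [D.wd_smul0, ← hs, h, shS_zero]
  have hsy : run y.1 l 0 = s := by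
    rw [hs]; symm
    apply run_congr
    intro i h1 h2
    exact hxy i (by omega) (by omega)
  -- the mixed point
  let z : ℤ → A := glue x.1 y.1 (-T) (-T)
  have hz : z ∈ SF F := glue_mem hR x.2 y.2 (fun k hk => hxy _ (by omega) (by omega))
  have hz2 : ∀ i : ℤ, -(T : ℤ) ≤ i → z i = y.1 i := by
    intro i hi
    simp only [z]
    rw [glue_right hi]
    exact congrArg y.1 (by ring)
  have hz1 : ∀ i : ℤ, i ≤ T → z i = x.1 i := by
    intro i hi
    by_cases h1 : i < -(T : ℤ)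
    · exact glue_left h1
    · rw [hz2 i (not_lt.1 h1), hxy i (not_lt.1 h1) hi]
  have hNC : NC F R z ⊆ NC F R x.1 := by
    intro p hp
    by_cases h1 : p + R ≤ T
    · intro hc
      apply hp
      apply hc.congr
      intro k hk
      rw [hz1 _ (by omega)]
    · exfalso
      have h2 : p ∈ NC F R y.1 := by
        intro hc
        apply hp
        apply hc.congr
        intro k hk
        rw [hz2 _ (by omega)]
      have h3 := hyl p h2
      have h4 := le_abs_self p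
      omega
  have hzc : (NC F R z).ncard ≤ j + 1 :=
    (Set.ncard_le_ncard hNC (nc_finite hR x.2)).trans hxc
  have hzn : (NC F R z).Nonempty := by
    obtain ⟨p, hp⟩ := hxn
    refine ⟨p, ?_⟩
    intro hc
    apply hp
    have h3 := hxl p hp
    have h4 := le_abs_self p
    apply hc.congr
    intro k hk
    rw [hz1 _ (by omega)]
  have hzs : run z l 0 = s := by
    rw [hs]
    apply run_congr
    intro i h1 h2
    exact hz1 i (by omega)
  have hzp : ¬ Per z := D.not_per_of_nc hR (x := ⟨z, hz⟩) hzn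
  have hzm : D.wd l • (⟨z, hz⟩ : SF F) ≠ ⟨z, hz⟩ := by
    rw [D.wd_smul0]
    intro h
    have h2 : shS (run z l 0) (⟨z, hz⟩ : SF F) = shS 0 ⟨z, hz⟩ := by
      rw [shS_zero]; exact h
    exact hzp (per_of_shS h2 (by rw [hzs]; exact hs0))
  -- symmetry of the three points
  have sym : ∀ w : SF F, (NC F R w.1).ncard ≤ j + 1 → D.wd l • w ≠ w → ¬ Per w.1 →
      run w.1 l 0 = s → ∀ n, w.1 (n + 1) = w.1 (s - n) := by
    intro w hw1 hw2 hw3 hw4
    obtain ⟨t, -, ht1, ht2, -⟩ := D.stepC hR hcom hk hw1 hw2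
    have h1 : D.wd l • shS 0 w = shS t w := by rw [shS_zero]; exact ht1
    have h2 := D.run_of_smul hw3 h1
    rw [hw4] at h2
    rw [h2]
    exact ht2
  have symx := sym x hxc hxm hxp rfl
  have symy := sym y hyc hym hyp hsy
  have symz := sym ⟨z, hz⟩ hzc hzm hzp hzs
  apply Subtype.ext
  funext i
  have ex := symx (i - 1)
  have ey := symy (i - 1)
  have ez := symz (i - 1)
  simp only [sub_add_cancel] at ex ey ez
  by_cases h1 : i ≤ T
  · by_cases h2 : -(T : ℤ) ≤ i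
    · exact hxy i h2 h1
    · rw [← hz1 i h1, ez, ey, hz2 _ (by omega)]
  · rw [← hz2 i (by omega), ez, ex, hz1 _ (by omega)]

theorem V_finite [Fintype A] (hR : Loc F R) {j : ℕ}
    (hcom : ∀ k ∈ D.Nj R j, ∀ k' ∈ D.Nj R j, k * k' = k' * k) {k : Γ} (hk : k ∈ D.Nj R j) :
    (D.V R j k).Finite := by
  obtain ⟨l, rfl, hl⟩ := hk
  let T : ℕ := 2 * l.length + j + 2 + R
  apply Set.Finite.of_injOn (f := fun x : SF F => (fun i : Fin (2 * T + 1) => x.1 ((i : ℕ) - T)))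
    (t := Set.univ) (fun _ _ => Set.mem_univ _) ?_ Set.finite_univ
  intro x hx y hy hxy
  apply D.V_eq hR hcom hl hx hy (T := T) le_rfl
  intro i h1 h2
  have h3 := congrFun hxy ⟨(i + T).toNat, by omega⟩
  simp only at h3
  have e : (((i + T).toNat : ℕ) : ℤ) - T = i := by omega
  rw [e] at h3
  exact h3

theorem Ln_nonempty [Finite A] (hR : Loc F R) {j : ℕ} (hj : D.Nj R (j + 1) = ⊥)
    {k : Γ} (hk : k ∈ D.Nj R j) (hk1 : k ≠ 1) : ∃ x, x ∈ D.V R j k := by
  by_contra hcon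
  push Not at hcon
  apply hk1
  have : k ∈ D.Nj R (j + 1) := by
    apply D.mem_Nj_succ hR hk
    intro x hx
    by_contra h
    exact hcon x ⟨hx.le, h⟩
  rwa [hj, Subgroup.mem_bot] at this

theorem mk_eq_iff {x y : SF F} : (Quotient.mk (MulAction.orbitRel Γ (SF F)) x =
    Quotient.mk (MulAction.orbitRel Γ (SF F)) y) ↔ ∃ g : Γ, g • y = x := by
  rw [Quotient.eq, MulAction.orbitRel_apply]
  rfl

theorem card_smul (g : Γ) (x : SF F) : (NC F R (g • x).1).ncard = (NC F R x.1).ncard := by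
  obtain ⟨s, hs⟩ := D.smul_eq g x
  rw [hs, shS_val, nc_sh_card]

theorem stepV [Fintype A] (hR : Loc F R) {j : ℕ} (hj : D.Nj R (j + 1) = ⊥)
    (hne : D.Nj R j ≠ ⊥)
    (hcom : ∀ k ∈ D.Nj R j, ∀ k' ∈ D.Nj R j, k * k' = k' * k) :
    ∃ M : Subgroup Γ, M.Normal ∧ M ≤ D.Nj R j ∧ ∃ k0 ∈ M, ∃ x : SF F,
      (NC F R x.1).ncard ≤ j + 1 ∧ k0 • x ≠ x ∧
      ∀ m ∈ M, (∀ n, m • shS n x = shS n x) → m = 1 := by
  classical
  have hex : ∃ n, ∃ k ∈ D.Nj R j, k ≠ 1 ∧ (D.Ln R j k).ncard = n := by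
    rw [ne_eq, Subgroup.eq_bot_iff_forall] at hne
    push Not at hne
    obtain ⟨k, hk, hk1⟩ := hne
    exact ⟨_, k, hk, hk1, rfl⟩
  obtain ⟨k0, hk0, hk01, hk0n⟩ := Nat.find_spec hex
  have hmin : ∀ k ∈ D.Nj R j, k ≠ 1 → (D.Ln R j k0).ncard ≤ (D.Ln R j k).ncard := by
    intro k hk hk1
    rw [hk0n]
    exact Nat.find_min' hex ⟨k, hk, hk1, rfl⟩
  obtain ⟨x, hx⟩ := D.Ln_nonempty hR hj hk0 hk01
  let M : Subgroup Γ :=
    { carrier := {m | m ∈ D.Nj R j ∧ D.Ln R j m ⊆ D.Ln R j k0}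
      mul_mem' := by
        rintro a b ⟨ha1, ha2⟩ ⟨hb1, hb2⟩
        refine ⟨(D.Nj R j).mul_mem ha1 hb1, ?_⟩
        rintro _ ⟨y, ⟨hy1, hy2⟩, rfl⟩
        by_cases h : b • y = y
        · apply ha2
          refine ⟨y, ⟨hy1, ?_⟩, rfl⟩
          intro h2
          apply hy2
          rw [mul_smul, h, h2]
        · apply hb2
          exact ⟨y, ⟨hy1, h⟩, rfl⟩
      one_mem' := by
        refine ⟨(D.Nj R j).one_mem, ?_⟩
        rintro _ ⟨y, ⟨hy1, hy2⟩, rfl⟩
        exact absurd (one_smul _ _) hy2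
      inv_mem' := by
        rintro a ⟨ha1, ha2⟩
        refine ⟨(D.Nj R j).inv_mem ha1, ?_⟩
        rintro _ ⟨y, ⟨hy1, hy2⟩, rfl⟩
        apply ha2
        refine ⟨y, ⟨hy1, ?_⟩, rfl⟩
        intro h2
        apply hy2
        rw [inv_smul_eq_iff, h2] }
  have hMn : M.Normal := by
    constructor
    rintro a ⟨ha1, ha2⟩ g
    refine ⟨(D.Nj_normal R j).conj_mem _ ha1 _, ?_⟩
    rintro _ ⟨y, ⟨hy1, hy2⟩, rfl⟩
    have h1 : Quotient.mk (MulAction.orbitRel Γ (SF F)) y =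
        Quotient.mk (MulAction.orbitRel Γ (SF F)) (g⁻¹ • y) := by
      rw [D.mk_eq_iff]
      exact ⟨g, smul_inv_smul g y⟩
    simp only
    rw [h1]
    apply ha2
    refine ⟨g⁻¹ • y, ⟨?_, ?_⟩, rfl⟩
    · rw [D.card_smul]; exact hy1
    · intro h
      apply hy2
      rw [mul_smul, mul_smul, h, smul_inv_smul]
  refine ⟨M, hMn, fun m hm => hm.1, k0, ⟨hk0, subset_rfl⟩, x, hx.1, hx.2, ?_⟩
  rintro m ⟨hm1, hm2⟩ hfix
  by_contra hm0
  have hfin : (D.Ln R j k0).Finite := (D.V_finite hR hcom hk0).image _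
  have h1 : D.Ln R j m ⊂ D.Ln R j k0 := by
    refine ⟨hm2, fun hsub => ?_⟩
    obtain ⟨y, ⟨hy1, hy2⟩, hy3⟩ := hsub ⟨x, hx, rfl⟩
    simp only at hy3
    rw [D.mk_eq_iff] at hy3
    obtain ⟨g, hg⟩ := hy3
    obtain ⟨s, hs⟩ := D.smul_eq g x
    apply hy2
    rw [← hg, hs]
    exact hfix s
  have h2 := Set.ncard_lt_ncard h1 hfin
  have h3 := hmin m hm1 hm0
  omega

end Dat

end Pool.Agent.Lib_helper71.AF
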